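import Mathlib

/-!
# Drawings with right angle crossings and bends: definitions (MP_bf8d95_lc)
-/

set_option autoImplicit false

namespace Pool.Agent.Lib.RACG

/-- points of the plane -/
abbrev Pt := ℝ × ℝ

/-- the inner product of two vectors of the plane -/
def dot (p q : Pt) : ℝ := p.1 * q.1 + p.2 * q.2

/-- data of a drawing: `pos v` is the point of the vertex `v`; the edge `e` is drawn as the polygonal
curve with the successive corners `pt e 0, pt e 1, ..., pt e (m e + 1)`, so with `m e` points between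
its ends -/
structure Dr (V : Type) where
  pos : V → Pt
  m : Sym2 V → ℕ
  pt : Sym2 V → ℕ → Pt

/-- the segment number `i` of the edge `e`, from `pt e i` to `pt e (i + 1)` -/
def Dr.sg {V : Type} (D : Dr V) (e : Sym2 V) (i : ℕ) : Set Pt :=
  segment ℝ (D.pt e i) (D.pt e (i + 1))

/-- the direction of the segment number `i` of the edge `e` -/
def Dr.dir {V : Type} (D : Dr V) (e : Sym2 V) (i : ℕ) : Pt := D.pt e (i + 1) - D.pt e i

/-- `D` is a RAC drawing of `G` with at most `k` bends on each edge -/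
structure IsRAC {V : Type} (k : ℕ) (G : SimpleGraph V) (D : Dr V) : Prop where
  inj : Function.Injective D.pos
  le : ∀ e ∈ G.edgeSet, D.m e ≤ k
  ends : ∀ e ∈ G.edgeSet, ∃ u v : V, e = s(u, v) ∧ D.pt e 0 = D.pos u ∧
    D.pt e (D.m e + 1) = D.pos v
  ne : ∀ e ∈ G.edgeSet, ∀ i ≤ D.m e, D.pt e i ≠ D.pt e (i + 1)
  arc : ∀ e ∈ G.edgeSet, ∀ i j : ℕ, i < j → j ≤ D.m e → ∀ x, x ∈ D.sg e i → x ∈ D.sg e j →
    j = i + 1 ∧ x = D.pt e j
  vert : ∀ e ∈ G.edgeSet, ∀ w, w ∉ e → ∀ i ≤ D.m e, D.pos w ∉ D.sg e i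
  cross : ∀ e ∈ G.edgeSet, ∀ f ∈ G.edgeSet, e ≠ f → ∀ i ≤ D.m e, ∀ j ≤ D.m f, ∀ x,
    x ∈ D.sg e i → x ∈ D.sg f j → (∃ w, x = D.pos w) ∨ dot (D.dir e i) (D.dir f j) = 0

end Pool.Agent.Lib.RACG
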