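import Pool.Agent.Lib.RACG.Inter

/-!
# Rational directions near given directions, with the same right angles (MP_bf8d95_lc)
-/

set_option autoImplicit false

open Filter Topology

namespace Pool.Agent.Lib.RACG

/-- rational points -/
def IsQ (p : Pt) : Prop := ∃ a b : ℚ, p = ((a : ℝ), (b : ℝ))

/-- rational numbers -/
def IsQn (x : ℝ) : Prop := ∃ a : ℚ, x = (a : ℝ)

theorem isQ_iff {p : Pt} : IsQ p ↔ IsQn p.1 ∧ IsQn p.2 := by
  constructor
  · rintro ⟨a, b, rfl⟩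
    exact ⟨⟨a, rfl⟩, ⟨b, rfl⟩⟩
  · rintro ⟨⟨a, ha⟩, ⟨b, hb⟩⟩
    exact ⟨a, b, Prod.ext ha hb⟩

theorem IsQn.add {x y : ℝ} (hx : IsQn x) (hy : IsQn y) : IsQn (x + y) := by
  obtain ⟨a, rfl⟩ := hx
  obtain ⟨b, rfl⟩ := hy
  exact ⟨a + b, by push_cast; ring⟩

theorem IsQn.sub {x y : ℝ} (hx : IsQn x) (hy : IsQn y) : IsQn (x - y) := by
  obtain ⟨a, rfl⟩ := hx
  obtain ⟨b, rfl⟩ := hy
  exact ⟨a - b, by push_cast; ring⟩

theorem IsQn.mul {x y : ℝ} (hx : IsQn x) (hy : IsQn y) : IsQn (x * y) := by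
  obtain ⟨a, rfl⟩ := hx
  obtain ⟨b, rfl⟩ := hy
  exact ⟨a * b, by push_cast; ring⟩

theorem IsQn.div {x y : ℝ} (hx : IsQn x) (hy : IsQn y) : IsQn (x / y) := by
  obtain ⟨a, rfl⟩ := hx
  obtain ⟨b, rfl⟩ := hy
  exact ⟨a / b, by push_cast; ring⟩

theorem IsQn.neg {x : ℝ} (hx : IsQn x) : IsQn (-x) := by
  obtain ⟨a, rfl⟩ := hx
  exact ⟨-a, by push_cast; ring⟩

theorem IsQ.add {p q : Pt} (hp : IsQ p) (hq : IsQ q) : IsQ (p + q) :=
  isQ_iff.2 ⟨(isQ_iff.1 hp).1.add (isQ_iff.1 hq).1, (isQ_iff.1 hp).2.add (isQ_iff.1 hq).2⟩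

theorem IsQ.sub {p q : Pt} (hp : IsQ p) (hq : IsQ q) : IsQ (p - q) :=
  isQ_iff.2 ⟨(isQ_iff.1 hp).1.sub (isQ_iff.1 hq).1, (isQ_iff.1 hp).2.sub (isQ_iff.1 hq).2⟩

theorem IsQ.smul {t : ℝ} {p : Pt} (ht : IsQn t) (hp : IsQ p) : IsQ (t • p) :=
  isQ_iff.2 ⟨ht.mul (isQ_iff.1 hp).1, ht.mul (isQ_iff.1 hp).2⟩

theorem IsQ.rot {p : Pt} (hp : IsQ p) : IsQ (rot p) :=
  isQ_iff.2 ⟨(isQ_iff.1 hp).2.neg, (isQ_iff.1 hp).1⟩

theorem isQn_cr {p q : Pt} (hp : IsQ p) (hq : IsQ q) : IsQn (cr p q) :=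
  ((isQ_iff.1 hp).1.mul (isQ_iff.1 hq).2).sub ((isQ_iff.1 hp).2.mul (isQ_iff.1 hq).1)

theorem isQ_inter {A d B d' : Pt} (hA : IsQ A) (hd : IsQ d) (hB : IsQ B) (hd' : IsQ d') :
    IsQ (inter A d B d') :=
  hA.add (IsQ.smul ((isQn_cr (hB.sub hA) hd').div (isQn_cr hd hd')) hd)

/-- rational numbers tending to `x` -/
noncomputable def qn (n : ℕ) (x : ℝ) : ℝ := (⌊(n + 1 : ℝ) * x⌋ : ℝ) / (n + 1 : ℝ)

theorem qn_isQn (n : ℕ) (x : ℝ) : IsQn (qn n x) :=
  ⟨(⌊(n + 1 : ℝ) * x⌋ : ℚ) / (n + 1 : ℚ), by unfold qn; push_cast; ring⟩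

theorem qn_tendsto (x : ℝ) : Tendsto (fun n => qn n x) atTop (𝓝 x) := by
  have h1 : Tendsto (fun n : ℕ => x - 1 / ((n : ℝ) + 1)) atTop (𝓝 x) := by
    have := tendsto_one_div_add_atTop_nhds_zero_nat (𝕜 := ℝ)
    simpa using (tendsto_const_nhds (x := x)).sub this
  refine tendsto_of_tendsto_of_tendsto_of_le_of_le h1 tendsto_const_nhds ?_ ?_
  · intro n
    have hn : (0 : ℝ) < (n : ℝ) + 1 := by positivity
    show x - 1 / ((n : ℝ) + 1) ≤ qn n x
    unfold qn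
    rw [le_div_iff₀ hn, sub_mul, one_div, inv_mul_cancel₀ hn.ne']
    have := Int.sub_one_lt_floor ((n + 1 : ℝ) * x)
    linarith
  · intro n
    have hn : (0 : ℝ) < (n : ℝ) + 1 := by positivity
    show qn n x ≤ x
    unfold qn
    rw [div_le_iff₀ hn]
    have := Int.floor_le ((n + 1 : ℝ) * x)
    linarith

/-- rational points tending to `p` -/
noncomputable def qp (n : ℕ) (p : Pt) : Pt := (qn n p.1, qn n p.2)

theorem qp_isQ (n : ℕ) (p : Pt) : IsQ (qp n p) := isQ_iff.2 ⟨qn_isQn _ _, qn_isQn _ _⟩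

theorem qp_tendsto (p : Pt) : Tendsto (fun n => qp n p) atTop (𝓝 p) :=
  (qn_tendsto p.1).prodMk_nhds (qn_tendsto p.2)

/-- the vectors which are parallel or perpendicular to each other -/
def Rel (p q : Pt) : Prop := ∃ t : ℝ, t ≠ 0 ∧ (q = t • p ∨ q = t • rot p)

theorem rot_rot (p : Pt) : rot (rot p) = (-1 : ℝ) • p := by
  obtain ⟨p1, p2⟩ := p
  simp [rot]

theorem rot_smul (t : ℝ) (p : Pt) : rot (t • p) = t • rot p := by
  obtain ⟨p1, p2⟩ := p
  simp [rot]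

theorem rel_equiv : Equivalence Rel := by
  refine ⟨?_, ?_, ?_⟩
  · intro p
    exact ⟨1, one_ne_zero, Or.inl (one_smul _ _).symm⟩
  · rintro p q ⟨t, ht, h | h⟩
    · refine ⟨t⁻¹, inv_ne_zero ht, Or.inl ?_⟩
      rw [h, smul_smul, inv_mul_cancel₀ ht, one_smul]
    · refine ⟨-t⁻¹, neg_ne_zero.2 (inv_ne_zero ht), Or.inr ?_⟩
      rw [h, rot_smul, rot_rot, smul_smul, smul_smul]
      have h1 : -t⁻¹ * t * -1 = 1 := by
        field_simp
      rw [h1, one_smul]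
  · rintro p q r ⟨t, ht, h⟩ ⟨s, hs, h'⟩
    rcases h with h | h <;> rcases h' with h' | h'
    · refine ⟨s * t, mul_ne_zero hs ht, Or.inl ?_⟩
      rw [h', h, smul_smul]
    · refine ⟨s * t, mul_ne_zero hs ht, Or.inr ?_⟩
      rw [h', h, rot_smul, smul_smul]
    · refine ⟨s * t, mul_ne_zero hs ht, Or.inr ?_⟩
      rw [h', h, smul_smul]
    · refine ⟨s * (t * -1), mul_ne_zero hs (mul_ne_zero ht (by norm_num)), Or.inl ?_⟩
      rw [h', h, rot_smul, rot_rot, smul_smul, smul_smul, mul_assoc]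

/-- the setoid of `Rel` -/
def relSetoid : Setoid Pt := ⟨Rel, rel_equiv⟩

/-- a representative of the class of `p` -/
noncomputable def rep (p : Pt) : Pt := (Quotient.mk relSetoid p).out

theorem rep_rel (p : Pt) : Rel (rep p) p := Quotient.mk_out (s := relSetoid) p

theorem rep_eq {p q : Pt} (h : Rel p q) : rep p = rep q := by
  unfold rep
  rw [Quotient.sound (s := relSetoid) h]

/-- there are rational vectors `ρ n d` tending to `d`, with `ρ n d ⊥ ρ n d'` for `d ⊥ d'` -/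
theorem exists_dir : ∃ ρ : ℕ → Pt → Pt, (∀ d, Tendsto (fun n => ρ n d) atTop (𝓝 d)) ∧
    (∀ n d, IsQ (ρ n d)) ∧
    (∀ n d d', d ≠ 0 → d' ≠ 0 → dot d d' = 0 → dot (ρ n d) (ρ n d') = 0) := by
  classical
  have h1 : ∀ d : Pt, ∃ t : ℝ, t ≠ 0 ∧ (d = t • rep d ∨ d = t • rot (rep d)) := fun d => rep_rel d
  choose τ hτ0 hτ using h1
  let ρ : ℕ → Pt → Pt := fun n d =>
    if d = τ d • rep d then qn n (τ d) • qp n (rep d) else qn n (τ d) • rot (qp n (rep d))
  have hrot : Continuous rot := by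
    unfold rot
    fun_prop
  refine ⟨ρ, ?_, ?_, ?_⟩
  · intro d
    by_cases hd : d = τ d • rep d
    · have h2 : Tendsto (fun n => qn n (τ d) • qp n (rep d)) atTop (𝓝 (τ d • rep d)) :=
        (qn_tendsto _).smul (qp_tendsto _)
      rw [← hd] at h2
      refine h2.congr ?_
      intro n
      simp only [ρ]
      rw [if_pos hd]
    · have h3 := (hτ d).resolve_left hd
      have h2 : Tendsto (fun n => qn n (τ d) • rot (qp n (rep d))) atTop
          (𝓝 (τ d • rot (rep d))) :=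
        (qn_tendsto _).smul ((hrot.tendsto _).comp (qp_tendsto _))
      rw [← h3] at h2
      refine h2.congr ?_
      intro n
      simp only [ρ]
      rw [if_neg hd]
  · intro n d
    simp only [ρ]
    split_ifs
    · exact IsQ.smul (qn_isQn _ _) (qp_isQ _ _)
    · exact IsQ.smul (qn_isQn _ _) (qp_isQ _ _).rot
  · intro n d d' hd hd' hdd
    have h2 : Rel d d' := by
      obtain ⟨t, ht⟩ := dot_zero_rot hd hdd
      refine ⟨t, ?_, Or.inr ht⟩
      rintro rfl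
      exact hd' (by rw [ht, zero_smul])
    have h3 : rep d = rep d' := rep_eq h2
    have hr0 : rep d ≠ 0 := by
      intro h4
      apply hd
      rcases hτ d with h5 | h5
      · rw [h5, h4, smul_zero]
      · rw [h5, h4]
        simp [rot]
    have h4 : dot (rep d) (rep d) ≠ 0 := fun h5 => hr0 (dot_self.1 h5)
    have h6 : ∀ p : Pt, dot (rot p) (rot p) = dot p p := by
      intro p
      simp only [dot, rot]
      ring
    have h7 : ∀ p : Pt, dot p (rot p) = 0 := by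
      intro p
      simp only [dot, rot]
      ring
    have h8 : ∀ p : Pt, dot (rot p) p = 0 := by
      intro p
      simp only [dot, rot]
      ring
    simp only [ρ]
    by_cases ha : d = τ d • rep d <;> by_cases hb : d' = τ d' • rep d'
    · exfalso
      rw [ha, hb, ← h3, dot_smul] at hdd
      exact mul_ne_zero (mul_ne_zero (hτ0 _) (hτ0 _)) h4 hdd
    · rw [if_pos ha, if_neg hb, ← h3, dot_smul, h7, mul_zero]
    · rw [if_neg ha, if_pos hb, ← h3, dot_smul, h8, mul_zero]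
    · exfalso
      have ha' := (hτ d).resolve_left ha
      have hb' := (hτ d').resolve_left hb
      rw [ha', hb', ← h3, dot_smul, h6] at hdd
      exact mul_ne_zero (mul_ne_zero (hτ0 _) (hτ0 _)) h4 hdd

end Pool.Agent.Lib.RACG
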