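import Pool.Agent.Lib.RACG.Pert

/-!
# Drawings on the integer grid (MP_bf8d95_lc)
-/

set_option autoImplicit false

open Filter Topology

namespace Pool.Agent.Lib.RACG

/-- the drawing scaled by the factor `c` -/
def scl {V : Type} (c : ℝ) (D : Dr V) : Dr V where
  pos := fun v => c • D.pos v
  m := D.m
  pt := fun e i => c • D.pt e i

theorem scl_seg {c : ℝ} (hc : c ≠ 0) {a b x : Pt} :
    x ∈ segment ℝ (c • a) (c • b) ↔ c⁻¹ • x ∈ segment ℝ a b := by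
  constructor
  · intro h
    obtain ⟨t, h0, h1, rfl⟩ := mem_seg.1 h
    refine mem_seg.2 ⟨t, h0, h1, ?_⟩
    rw [smul_add, smul_smul, inv_mul_cancel₀ hc, one_smul, ← smul_sub, smul_comm t c, smul_smul,
      inv_mul_cancel₀ hc, one_smul]
  · intro h
    obtain ⟨t, h0, h1, hx⟩ := mem_seg.1 h
    refine mem_seg.2 ⟨t, h0, h1, ?_⟩
    have h2 : x = c • (c⁻¹ • x) := by rw [smul_smul, mul_inv_cancel₀ hc, one_smul]
    rw [h2, hx]
    module

theorem scl_rac {V : Type} {k : ℕ} {G : SimpleGraph V} {D : Dr V} (h : IsRAC k G D) {c : ℝ}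
    (hc : c ≠ 0) : IsRAC k G (scl c D) := by
  have hinj : ∀ p q : Pt, c • p = c • q → p = q := by
    intro p q hpq
    have h1 := congrArg (fun z => c⁻¹ • z) hpq
    simpa [smul_smul, inv_mul_cancel₀ hc] using h1
  have hsg : ∀ e i x, x ∈ (scl c D).sg e i ↔ c⁻¹ • x ∈ D.sg e i := fun e i x => scl_seg hc
  have hdir : ∀ e i, (scl c D).dir e i = c • D.dir e i := by
    intro e i
    unfold Dr.dir
    show c • D.pt e (i + 1) - c • D.pt e i = _
    rw [← smul_sub]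
  refine ⟨fun u v huv => h.inj (hinj _ _ huv), h.le, ?_, ?_, ?_, ?_, ?_⟩
  · intro e he
    obtain ⟨u, v, huv, h0, h1⟩ := h.ends e he
    refine ⟨u, v, huv, ?_, ?_⟩
    · show c • D.pt e 0 = c • D.pos u
      rw [h0]
    · show c • D.pt e (D.m e + 1) = c • D.pos v
      rw [h1]
  · intro e he i hi hc'
    exact h.ne e he i hi (hinj _ _ hc')
  · intro e he i j hij hj x hx hx'
    obtain ⟨h1, h2⟩ := h.arc e he i j hij hj _ ((hsg e i x).1 hx) ((hsg e j x).1 hx')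
    refine ⟨h1, ?_⟩
    show x = c • D.pt e j
    rw [← h2, smul_smul, mul_inv_cancel₀ hc, one_smul]
  · intro e he w hw i hi hx
    have h1 := (hsg e i _).1 hx
    have h2 : c⁻¹ • (scl c D).pos w = D.pos w := by
      show c⁻¹ • (c • D.pos w) = D.pos w
      rw [smul_smul, inv_mul_cancel₀ hc, one_smul]
    rw [h2] at h1
    exact h.vert e he w hw i hi h1
  · intro e he f hf hef i hi j hj x hx hx'
    rcases h.cross e he f hf hef i hi j hj _ ((hsg e i x).1 hx) ((hsg f j x).1 hx') with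
      ⟨w, hw⟩ | h1
    · left
      refine ⟨w, ?_⟩
      show x = c • D.pos w
      rw [← hw, smul_smul, mul_inv_cancel₀ hc, one_smul]
    · right
      rw [hdir, hdir, dot_smul, h1, mul_zero]

theorem den {S : Set ℝ} (hS : S.Finite) (hq : ∀ x ∈ S, IsQn x) :
    ∃ N : ℕ, 0 < N ∧ ∀ x ∈ S, ∃ z : ℤ, (N : ℝ) * x = z := by
  induction S, hS using Set.Finite.induction_on with
  | empty => exact ⟨1, one_pos, fun x hx => absurd hx (by simp)⟩
  | @insert a S _ _ ih =>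
    obtain ⟨N, hN, h1⟩ := ih (fun x hx => hq x (Set.mem_insert_of_mem _ hx))
    obtain ⟨q, hq'⟩ := hq a (Set.mem_insert _ _)
    refine ⟨N * q.den, Nat.mul_pos hN q.den_pos, ?_⟩
    intro x hx
    rcases Set.mem_insert_iff.1 hx with rfl | hx
    · refine ⟨N * q.num, ?_⟩
      rw [hq']
      push_cast
      have h2 : (q : ℝ) * (q.den : ℝ) = (q.num : ℝ) := by exact_mod_cast Rat.mul_den_eq_num q
      rw [mul_assoc, mul_comm (q.den : ℝ) (q : ℝ), h2]
    · obtain ⟨z, hz⟩ := h1 x hx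
      refine ⟨z * q.den, ?_⟩
      push_cast
      rw [← hz]
      ring

/-- integer points -/
def IsZ (p : Pt) : Prop := ∃ a b : ℤ, p = ((a : ℝ), (b : ℝ))

theorem to_grid {V : Type} [Finite V] {k : ℕ} {G : SimpleGraph V} {D : Dr V} (h : IsRAC k G D)
    (hp : ∀ v, IsQ (D.pos v)) (hc : ∀ e i, IsQ (D.pt e i)) :
    ∃ D' : Dr V, IsRAC k G D' ∧ (∀ v, IsZ (D'.pos v)) ∧
      ∀ e ∈ G.edgeSet, ∀ i ≤ D'.m e + 1, IsZ (D'.pt e i) := by
  classical
  have hfe : G.edgeSet.Finite := Set.toFinite _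
  let S : Set Pt := Set.range D.pos ∪ ⋃ e ∈ G.edgeSet, ⋃ i ∈ Set.Iic (D.m e + 1), {D.pt e i}
  have hSf : S.Finite := by
    refine (Set.finite_range _).union (hfe.biUnion fun e _ => ?_)
    exact (Set.finite_Iic _).biUnion fun i _ => Set.finite_singleton _
  have hSq : ∀ x ∈ S, IsQ x := by
    rintro x (⟨v, rfl⟩ | hx)
    · exact hp v
    · simp only [Set.mem_iUnion, Set.mem_singleton_iff] at hx
      obtain ⟨e, -, i, -, rfl⟩ := hx
      exact hc e i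
  obtain ⟨N, hN, h1⟩ := den ((hSf.image Prod.fst).union (hSf.image Prod.snd)) (by
    rintro x (⟨y, hy, rfl⟩ | ⟨y, hy, rfl⟩)
    · exact (isQ_iff.1 (hSq y hy)).1
    · exact (isQ_iff.1 (hSq y hy)).2)
  have hN' : (N : ℝ) ≠ 0 := by exact_mod_cast hN.ne'
  have hZ : ∀ x ∈ S, IsZ ((N : ℝ) • x) := by
    intro x hx
    obtain ⟨a, ha⟩ := h1 x.1 (Or.inl ⟨x, hx, rfl⟩)
    obtain ⟨b, hb⟩ := h1 x.2 (Or.inr ⟨x, hx, rfl⟩)
    exact ⟨a, b, Prod.ext ha hb⟩
  refine ⟨scl N D, scl_rac h hN', ?_, ?_⟩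
  · intro v
    exact hZ _ (Or.inl ⟨v, rfl⟩)
  · intro e he i hi
    refine hZ _ (Or.inr ?_)
    simp only [Set.mem_iUnion, Set.mem_singleton_iff]
    exact ⟨e, he, i, hi, rfl⟩

/-- the placements of the vertices which extend to drawings -/
def Plc {V : Type} (k : ℕ) (G : SimpleGraph V) : Set (V → Pt) :=
  {p | ∃ D : Dr V, IsRAC k G D ∧ D.pos = p}

theorem plc_open {V : Type} [Finite V] {k : ℕ} (hk : 1 ≤ k) (G : SimpleGraph V) :
    IsOpen (Plc k G) := by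
  rw [isOpen_iff_mem_nhds]
  rintro p ⟨D, hD, rfl⟩
  obtain ⟨m', C, -, hC⟩ := pert hk hD
  have h1 := hC (V → Pt) (𝓝 D.pos) (fun q => q) (fun _ x => x) (fun _ x => x) (fun _ x => x)
    (fun v => (continuous_apply v).tendsto _) (fun x => tendsto_const_nhds)
    (fun x => tendsto_const_nhds) (fun x => tendsto_const_nhds) (fun _ _ _ _ _ h => h)
  filter_upwards [h1] with q hq
  exact ⟨_, hq, rfl⟩

theorem plc_rat {V : Type} [Finite V] {k : ℕ} (hk : 1 ≤ k) (G : SimpleGraph V) {p : V → Pt}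
    (hp : p ∈ Plc k G) (hpq : ∀ v, IsQ (p v)) :
    ∃ D : Dr V, IsRAC k G D ∧ D.pos = p ∧ ∀ e i, IsQ (D.pt e i) := by
  obtain ⟨D, hD, rfl⟩ := hp
  obtain ⟨m', C, hCq, hC⟩ := pert hk hD
  obtain ⟨ρ, hρ1, hρ2, hρ3⟩ := exists_dir
  have h1 := hC ℕ atTop (fun _ => D.pos) qp ρ qn (fun v => tendsto_const_nhds)
    qp_tendsto hρ1 qn_tendsto hρ3
  obtain ⟨n, hn⟩ := h1.exists
  exact ⟨_, hn, rfl, fun e i => hCq _ _ _ _ hpq (qp_isQ n) (hρ2 n) (qn_isQn n) e i⟩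

theorem rat_point (x : ℝ) {ε : ℝ} (hε : 0 < ε) : ∃ q : ℚ, |(q : ℝ) - x| < ε := by
  obtain ⟨q, h1, h2⟩ := exists_rat_btwn (show x - ε < x + ε by linarith)
  refine ⟨q, abs_lt.2 ⟨by linarith, by linarith⟩⟩

theorem exists_rat_plc {V : Type} [Finite V] {k : ℕ} (hk : 1 ≤ k) (G : SimpleGraph V)
    {p : V → Pt} (hp : p ∈ Plc k G) : ∃ q ∈ Plc k G, ∀ v, IsQ (q v) := by
  have h1 : Tendsto (fun n : ℕ => fun v : V => qp n (p v)) atTop (𝓝 p) :=
    tendsto_pi_nhds.2 fun v => qp_tendsto (p v)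
  obtain ⟨n, hn⟩ := (h1.eventually ((plc_open hk G).mem_nhds hp)).exists
  exact ⟨_, hn, fun v => qp_isQ n (p v)⟩

end Pool.Agent.Lib.RACG
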