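import Pool.Agent.Lib.RACG.Defs

/-!
# Intersection points of lines (MP_bf8d95_lc)
-/

set_option autoImplicit false

open Filter Topology

namespace Pool.Agent.Lib.RACG

/-- the determinant of two vectors of the plane -/
def cr (p q : Pt) : ℝ := p.1 * q.2 - p.2 * q.1

/-- rotation by a right angle -/
def rot (p : Pt) : Pt := (-p.2, p.1)

/-- the common point of the lines `A + t d` and `B + t d'` -/
noncomputable def inter (A d B d' : Pt) : Pt := A + (cr (B - A) d' / cr d d') • d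

theorem inter_eq {A d B d' : Pt} (h : cr d d' ≠ 0) :
    inter A d B d' = B + (cr (B - A) d / cr d d') • d' := by
  unfold inter
  obtain ⟨a1, a2⟩ := A
  obtain ⟨d1, d2⟩ := d
  obtain ⟨b1, b2⟩ := B
  obtain ⟨e1, e2⟩ := d'
  simp only [cr, Prod.mk_sub_mk, Prod.smul_mk, Prod.mk_add_mk, smul_eq_mul] at h ⊢
  have key : ∀ (a b x y N M D : ℝ), D ≠ 0 → (a - b) * D + N * x - M * y = 0 →
      a + N / D * x = b + M / D * y := by
    intro a b x y N M D hD hk
    have h1 : a + N / D * x - (b + M / D * y) = ((a - b) * D + N * x - M * y) / D := by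
      field_simp
      ring
    rw [hk, zero_div, sub_eq_zero] at h1
    exact h1
  refine Prod.ext (key _ _ _ _ _ _ _ h ?_) (key _ _ _ _ _ _ _ h ?_)
  · ring
  · ring

theorem cr_smul_left (t : ℝ) (p q : Pt) : cr (t • p) q = t * cr p q := by
  simp only [cr, Prod.smul_fst, Prod.smul_snd, smul_eq_mul]
  ring

/-- if `P` lies on both lines, it is their common point -/
theorem inter_of {P A d B d' : Pt} (h : cr d d' ≠ 0) {s t : ℝ} (h1 : P = A + s • d)
    (h2 : P = B + t • d') : inter A d B d' = P := by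
  unfold inter
  obtain ⟨a1, a2⟩ := A
  obtain ⟨d1, d2⟩ := d
  obtain ⟨b1, b2⟩ := B
  obtain ⟨e1, e2⟩ := d'
  rw [h1]
  rw [h1] at h2
  simp only [cr, Prod.mk_sub_mk, Prod.smul_mk, Prod.mk_add_mk, smul_eq_mul, Prod.mk.injEq] at h h2 ⊢
  obtain ⟨h3, h4⟩ := h2
  have h5 : ((b1 - a1) * e2 - (b2 - a2) * e1) / (d1 * e2 - d2 * e1) = s := by
    rw [div_eq_iff h]
    linear_combination (-e2) * h3 + e1 * h4
  rw [h5]
  exact ⟨rfl, rfl⟩

theorem cr_tendsto {ι : Type*} {l : Filter ι} {d d' : ι → Pt} {d0 d0' : Pt}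
    (hd : Tendsto d l (𝓝 d0)) (hd' : Tendsto d' l (𝓝 d0')) :
    Tendsto (fun n => cr (d n) (d' n)) l (𝓝 (cr d0 d0')) := by
  have h1 : Continuous fun p : Pt × Pt => cr p.1 p.2 := by
    unfold cr
    fun_prop
  exact (h1.tendsto (d0, d0')).comp (hd.prodMk_nhds hd')

theorem inter_tendsto {ι : Type*} {l : Filter ι} {A d B d' : ι → Pt} {A0 d0 B0 d0' : Pt}
    (hA : Tendsto A l (𝓝 A0)) (hd : Tendsto d l (𝓝 d0)) (hB : Tendsto B l (𝓝 B0))
    (hd' : Tendsto d' l (𝓝 d0')) (h : cr d0 d0' ≠ 0) :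
    Tendsto (fun n => inter (A n) (d n) (B n) (d' n)) l (𝓝 (inter A0 d0 B0 d0')) := by
  unfold inter
  exact hA.add (((cr_tendsto (hB.sub hA) hd').div (cr_tendsto hd hd') h).smul hd)

theorem cr_zero_par {p q : Pt} (hp : p ≠ 0) (h : cr p q = 0) : ∃ t : ℝ, q = t • p := by
  obtain ⟨p1, p2⟩ := p
  obtain ⟨q1, q2⟩ := q
  simp only [cr] at h
  by_cases h1 : p1 = 0
  · have h2 : p2 ≠ 0 := by
      rintro rfl
      exact hp (by rw [h1]; rfl)
    refine ⟨q2 / p2, ?_⟩
    rw [h1] at h ⊢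
    have h3 : q1 = 0 := by
      have h4 : p2 * q1 = 0 := by linarith
      exact (mul_eq_zero.1 h4).resolve_left h2
    rw [h3, Prod.smul_mk, smul_eq_mul, smul_eq_mul, mul_zero, div_mul_cancel₀ _ h2]
  · refine ⟨q1 / p1, ?_⟩
    rw [Prod.smul_mk, smul_eq_mul, smul_eq_mul, div_mul_cancel₀ _ h1]
    refine Prod.ext rfl ?_
    show q2 = q1 / p1 * p2
    field_simp
    linarith

theorem dot_self {p : Pt} : dot p p = 0 ↔ p = 0 := by
  obtain ⟨p1, p2⟩ := p
  simp only [dot]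
  constructor
  · intro h
    have h1 : p1 = 0 := by nlinarith [sq_nonneg p1, sq_nonneg p2]
    have h2 : p2 = 0 := by nlinarith [sq_nonneg p1, sq_nonneg p2]
    rw [h1, h2]
    rfl
  · intro h
    have h1 : p1 = 0 := congrArg Prod.fst h
    have h2 : p2 = 0 := congrArg Prod.snd h
    rw [h1, h2]
    ring

theorem dot_smul (s t : ℝ) (p q : Pt) : dot (s • p) (t • q) = s * t * dot p q := by
  simp only [dot, Prod.smul_fst, Prod.smul_snd, smul_eq_mul]
  ring

theorem dot_comm (p q : Pt) : dot p q = dot q p := by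
  simp only [dot]
  ring

theorem dot_zero_rot {p q : Pt} (hp : p ≠ 0) (h : dot p q = 0) : ∃ t : ℝ, q = t • rot p := by
  have h1 : cr (rot p) q = 0 := by
    obtain ⟨p1, p2⟩ := p
    obtain ⟨q1, q2⟩ := q
    simp only [cr, rot, dot] at h ⊢
    linarith
  refine cr_zero_par ?_ h1
  intro h2
  apply hp
  have h3 : -p.2 = 0 := congrArg Prod.fst h2
  have h4 : p.1 = 0 := congrArg Prod.snd h2
  refine Prod.ext h4 ?_
  show p.2 = 0
  linarith

end Pool.Agent.Lib.RACG
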