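import Pool.Agent.Lib.RACG.Grid

/-!
# Placements of the vertices which extend to drawings with right angle crossings (MP_bf8d95_lc)
-/

set_option autoImplicit false

open Filter Topology

namespace Pool.Agent.Lib.RACG

/-- `D` is a drawing on the integer grid: all vertices and all corners are integer points -/
def OnGrid {V : Type} (G : SimpleGraph V) (D : Dr V) : Prop :=
  (∀ v, IsZ (D.pos v)) ∧ ∀ e ∈ G.edgeSet, ∀ i ≤ D.m e + 1, IsZ (D.pt e i)

/-- the placements `p` of the vertices for which some multiple `N p`, `N ≥ 1`, extends to a drawing on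
the integer grid -/
def GridPlc {V : Type} (k : ℕ) (G : SimpleGraph V) : Set (V → Pt) :=
  {p | ∃ (N : ℕ) (D : Dr V), 0 < N ∧ IsRAC k G D ∧ OnGrid G D ∧ ∀ v, D.pos v = (N : ℝ) • p v}

theorem to_grid' {V : Type} [Finite V] {k : ℕ} {G : SimpleGraph V} {D : Dr V} (h : IsRAC k G D)
    (hp : ∀ v, IsQ (D.pos v)) (hc : ∀ e i, IsQ (D.pt e i)) : D.pos ∈ GridPlc k G := by
  classical
  have hfe : G.edgeSet.Finite := Set.toFinite _
  let S : Set Pt := Set.range D.pos ∪ ⋃ e ∈ G.edgeSet, ⋃ i ∈ Set.Iic (D.m e + 1), {D.pt e i}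
  have hSf : S.Finite := by
    refine (Set.finite_range _).union (hfe.biUnion fun e _ => ?_)
    exact (Set.finite_Iic _).biUnion fun i _ => Set.finite_singleton _
  have hSq : ∀ x ∈ S, IsQ x := by
    rintro x (⟨v, rfl⟩ | hx)
    · exact hp v
    · simp only [Set.mem_iUnion, Set.mem_singleton_iff] at hx
      obtain ⟨e, -, i, -, rfl⟩ := hx
      exact hc e i
  obtain ⟨N, hN, h1⟩ := den ((hSf.image Prod.fst).union (hSf.image Prod.snd)) (by
    rintro x (⟨y, hy, rfl⟩ | ⟨y, hy, rfl⟩)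
    · exact (isQ_iff.1 (hSq y hy)).1
    · exact (isQ_iff.1 (hSq y hy)).2)
  have hN' : (N : ℝ) ≠ 0 := by exact_mod_cast hN.ne'
  have hZ : ∀ x ∈ S, IsZ ((N : ℝ) • x) := by
    intro x hx
    obtain ⟨a, ha⟩ := h1 x.1 (Or.inl ⟨x, hx, rfl⟩)
    obtain ⟨b, hb⟩ := h1 x.2 (Or.inr ⟨x, hx, rfl⟩)
    exact ⟨a, b, Prod.ext ha hb⟩
  refine ⟨N, scl N D, hN, scl_rac h hN', ⟨?_, ?_⟩, fun v => rfl⟩
  · intro v
    exact hZ _ (Or.inl ⟨v, rfl⟩)
  · intro e he i hi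
    refine hZ _ (Or.inr ?_)
    simp only [Set.mem_iUnion, Set.mem_singleton_iff]
    exact ⟨e, he, i, hi, rfl⟩

theorem grid_dense {V : Type} [Finite V] {k : ℕ} (hk : 1 ≤ k) (G : SimpleGraph V) :
    Plc k G ⊆ closure (GridPlc k G) := by
  intro p hp
  have h1 : Tendsto (fun n : ℕ => fun v : V => qp n (p v)) atTop (𝓝 p) :=
    tendsto_pi_nhds.2 fun v => qp_tendsto (p v)
  refine mem_closure_of_tendsto h1 ?_
  filter_upwards [h1.eventually ((plc_open hk G).mem_nhds hp)] with n hn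
  obtain ⟨D, hD, hpos, hc⟩ := plc_rat hk G hn (fun v => qp_isQ n (p v))
  rw [← hpos]
  exact to_grid' hD (fun v => by rw [hpos]; exact qp_isQ n (p v)) hc

theorem gridPlc_sub {V : Type} {k : ℕ} (G : SimpleGraph V) : GridPlc k G ⊆ Plc k G := by
  rintro p ⟨N, D, hN, hD, -, hpos⟩
  have hN' : (N : ℝ) ≠ 0 := by exact_mod_cast hN.ne'
  refine ⟨scl (N : ℝ)⁻¹ D, scl_rac hD (inv_ne_zero hN'), ?_⟩
  funext v
  show (N : ℝ)⁻¹ • D.pos v = p v
  rw [hpos v, smul_smul, inv_mul_cancel₀ hN', one_smul]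

theorem main {V : Type} [Finite V] {k : ℕ} (hk : 1 ≤ k) (G : SimpleGraph V) :
    IsOpen (Plc k G) ∧ GridPlc k G ⊆ Plc k G ∧ Plc k G ⊆ closure (GridPlc k G) ∧
      ((∃ D : Dr V, IsRAC k G D) ↔ ∃ D : Dr V, IsRAC k G D ∧ OnGrid G D) := by
  refine ⟨plc_open hk G, gridPlc_sub G, grid_dense hk G, ?_, ?_⟩
  · rintro ⟨D, hD⟩
    have h1 := grid_dense hk G (show D.pos ∈ Plc k G from ⟨D, hD, rfl⟩)
    obtain ⟨p, hp⟩ := closure_nonempty_iff.1 ⟨_, h1⟩
    obtain ⟨N, D', -, hD', hg, -⟩ := hp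
    exact ⟨D', hD', hg⟩
  · rintro ⟨D, hD, -⟩
    exact ⟨D, hD⟩

end Pool.Agent.Lib.RACG
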