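import Pool.Agent.Lib.RACG.SegA
import Pool.Agent.Lib.RACG.Inter

/-!
# Drawings without straight corners (MP_bf8d95_lc)
-/

set_option autoImplicit false

namespace Pool.Agent.Lib.RACG

/-- two consecutive parallel segments of a simple curve form one segment -/
theorem join {A B C : Pt} (hAB : A ≠ B) (hBC : B ≠ C) (hcr : cr (B - A) (C - B) = 0)
    (hs : ∀ x, x ∈ segment ℝ A B → x ∈ segment ℝ B C → x = B) :
    A ≠ C ∧ ∃ s t : ℝ, C - A = s • (B - A) ∧ C - A = t • (C - B) ∧
      ∀ x, x ∈ segment ℝ A C → x ∈ segment ℝ A B ∨ x ∈ segment ℝ B C := by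
  obtain ⟨t, ht⟩ := cr_zero_par (sub_ne_zero.2 hAB.symm) hcr
  have ht0 : t ≠ 0 := by
    rintro rfl
    rw [zero_smul, sub_eq_zero] at ht
    exact hBC ht.symm
  have htp : 0 < t := by
    by_contra hc
    have htn : t < 0 := lt_of_le_of_ne (not_lt.1 hc) ht0
    -- the point B + s (C - B) with s = 1 / (1 - t)
    have h1 : 0 < 1 - t := by linarith
    have h2 : B + (1 / (1 - t)) • (C - B) = B := by
      refine hs _ (mem_seg.2 ⟨1 / (1 - t), by positivity, ?_, ?_⟩)
        (mem_seg.2 ⟨1 / (1 - t), by positivity, ?_, rfl⟩)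
      · rw [div_le_one h1]
        linarith
      · rw [ht, smul_smul]
        have h3 : B = A + (1 : ℝ) • (B - A) := by
          rw [one_smul]
          abel
        conv_lhs => lhs; rw [h3]
        rw [add_assoc, ← add_smul]
        congr 2
        field_simp
        ring
      · rw [div_le_one h1]
        linarith
    have h4 : (1 / (1 - t)) • (C - B) = 0 := by
      have := congrArg (fun z => z - B) h2
      simpa using this
    rcases smul_eq_zero.1 h4 with h5 | h5
    · exact absurd h5 (by positivity)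
    · exact hBC (sub_eq_zero.1 h5).symm
  have h1 : C - A = (1 + t) • (B - A) := by
    rw [add_smul, one_smul, ← ht]
    abel
  have h2 : C - A = ((1 + t) / t) • (C - B) := by
    rw [h1, ht, smul_smul, div_mul_cancel₀ _ ht0]
  refine ⟨?_, 1 + t, (1 + t) / t, h1, h2, ?_⟩
  · intro hAC
    rw [← hAC, sub_self] at h1
    rcases smul_eq_zero.1 h1.symm with h3 | h3
    · linarith
    · exact hAB (sub_eq_zero.1 h3).symm
  · intro x hx
    obtain ⟨s, hs0, hs1, rfl⟩ := mem_seg.1 hx
    rw [h1, smul_smul]
    by_cases h3 : s * (1 + t) ≤ 1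
    · left
      exact mem_seg.2 ⟨s * (1 + t), by positivity, h3, rfl⟩
    · right
      push Not at h3
      refine mem_seg.2 ⟨(s * (1 + t) - 1) / t, div_nonneg (by linarith) htp.le, ?_, ?_⟩
      · rw [div_le_one htp]
        nlinarith
      · rw [ht, smul_smul, div_mul_cancel₀ _ ht0, sub_smul, one_smul]
        abel

/-- remove the corner number `j + 1` of the edge `e0` -/
def rem {V : Type} [DecidableEq (Sym2 V)] (D : Dr V) (e0 : Sym2 V) (j : ℕ) : Dr V where
  pos := D.pos
  m := fun e => if e = e0 then D.m e - 1 else D.m e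
  pt := fun e i => if e = e0 ∧ j < i then D.pt e (i + 1) else D.pt e i

theorem rem_rac {V : Type} [DecidableEq (Sym2 V)] {k : ℕ} {G : SimpleGraph V} {D : Dr V}
    (h : IsRAC k G D) {e0 : Sym2 V} (he0 : e0 ∈ G.edgeSet) {j : ℕ} (hj : j < D.m e0)
    (hcr : cr (D.dir e0 j) (D.dir e0 (j + 1)) = 0) : IsRAC k G (rem D e0 j) := by
  have hJ := join (h.ne e0 he0 j hj.le) (h.ne e0 he0 (j + 1) hj) hcr
    (fun x hx hx' => (h.arc e0 he0 j (j + 1) (Nat.lt_succ_self j) hj x hx hx').2)
  obtain ⟨hAC, s, t, hs, ht, hun⟩ := hJ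
  -- segments of the new drawing
  have hseg : ∀ e ∈ G.edgeSet, ∀ i ≤ (rem D e0 j).m e, ∀ x, x ∈ (rem D e0 j).sg e i →
      ∃ g ≤ D.m e, x ∈ D.sg e g ∧ (∃ c : ℝ, (rem D e0 j).dir e i = c • D.dir e g) ∧
        ((e ≠ e0 ∧ g = i) ∨ (e = e0 ∧ ((i < j ∧ g = i) ∨ (i = j ∧ (g = j ∨ g = j + 1)) ∨
          (j < i ∧ g = i + 1)))) := by
    intro e he i hi x hx
    by_cases hee : e = e0
    · subst hee
      have hm : (rem D e j).m e = D.m e - 1 := by simp [rem]
      rw [hm] at hi
      rcases lt_trichotomy i j with hij | hij | hij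
      · have h1 : (rem D e j).pt e i = D.pt e i := by simp [rem]; omega
        have h2 : (rem D e j).pt e (i + 1) = D.pt e (i + 1) := by simp [rem]; omega
        refine ⟨i, by omega, ?_, ⟨1, ?_⟩, Or.inr ⟨rfl, Or.inl ⟨hij, rfl⟩⟩⟩
        · unfold Dr.sg at hx ⊢
          rw [h1, h2] at hx
          exact hx
        · unfold Dr.dir
          rw [h1, h2, one_smul]
      · subst hij
        have h1 : (rem D e i).pt e i = D.pt e i := by simp [rem]
        have h2 : (rem D e i).pt e (i + 1) = D.pt e (i + 1 + 1) := by simp [rem]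
        unfold Dr.sg at hx
        rw [h1, h2] at hx
        rcases hun x hx with hx1 | hx1
        · refine ⟨i, by omega, hx1, ⟨s, ?_⟩, Or.inr ⟨rfl, Or.inr (Or.inl ⟨rfl, Or.inl rfl⟩)⟩⟩
          unfold Dr.dir
          rw [h1, h2]
          exact hs
        · refine ⟨i + 1, by omega, hx1, ⟨t, ?_⟩,
            Or.inr ⟨rfl, Or.inr (Or.inl ⟨rfl, Or.inr rfl⟩)⟩⟩
          unfold Dr.dir
          rw [h1, h2]
          exact ht
      · have h1 : (rem D e j).pt e i = D.pt e (i + 1) := by simp [rem, hij]
        have h2 : (rem D e j).pt e (i + 1) = D.pt e (i + 1 + 1) := by simp [rem]; omega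
        refine ⟨i + 1, by omega, ?_, ⟨1, ?_⟩, Or.inr ⟨rfl, Or.inr (Or.inr ⟨hij, rfl⟩)⟩⟩
        · unfold Dr.sg at hx ⊢
          rw [h1, h2] at hx
          exact hx
        · unfold Dr.dir
          rw [h1, h2, one_smul]
    · have hm : (rem D e0 j).m e = D.m e := by simp [rem, hee]
      have h1 : ∀ a, (rem D e0 j).pt e a = D.pt e a := by
        intro a
        simp [rem, hee]
      rw [hm] at hi
      refine ⟨i, hi, ?_, ⟨1, ?_⟩, Or.inl ⟨hee, rfl⟩⟩
      · unfold Dr.sg at hx ⊢
        rw [h1, h1] at hx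
        exact hx
      · unfold Dr.dir
        rw [h1, h1, one_smul]
  refine ⟨h.inj, ?_, ?_, ?_, ?_, ?_, ?_⟩
  · intro e he
    have := h.le e he
    simp only [rem]
    split_ifs <;> omega
  · intro e he
    obtain ⟨u, v, huv, h0, h1⟩ := h.ends e he
    refine ⟨u, v, huv, ?_, ?_⟩
    · simp only [rem, not_lt_zero, and_false, if_false]
      exact h0
    · by_cases hee : e = e0
      · subst hee
        have h2 : (rem D e j).pt e ((rem D e j).m e + 1) = D.pt e (D.m e + 1) := by
          simp only [rem, if_true]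
          rw [if_pos ⟨trivial, by omega⟩]
          congr 1
          omega
        rw [h2]
        exact h1
      · simp only [rem, hee, false_and, if_false]
        exact h1
  · intro e he i hi
    by_cases hee : e = e0
    · subst hee
      have hm : (rem D e j).m e = D.m e - 1 := by simp [rem]
      rw [hm] at hi
      rcases lt_trichotomy i j with hij | hij | hij
      · have h1 : (rem D e j).pt e i = D.pt e i := by simp [rem]; omega
        have h2 : (rem D e j).pt e (i + 1) = D.pt e (i + 1) := by simp [rem]; omega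
        rw [h1, h2]
        exact h.ne e he i (by omega)
      · subst hij
        have h1 : (rem D e i).pt e i = D.pt e i := by simp [rem]
        have h2 : (rem D e i).pt e (i + 1) = D.pt e (i + 1 + 1) := by simp [rem]
        rw [h1, h2]
        exact hAC
      · have h1 : (rem D e j).pt e i = D.pt e (i + 1) := by simp [rem, hij]
        have h2 : (rem D e j).pt e (i + 1) = D.pt e (i + 1 + 1) := by simp [rem]; omega
        rw [h1, h2]
        exact h.ne e he (i + 1) (by omega)
    · have hm : (rem D e0 j).m e = D.m e := by simp [rem, hee]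
      have h1 : ∀ a, (rem D e0 j).pt e a = D.pt e a := by
        intro a
        simp [rem, hee]
      rw [hm] at hi
      rw [h1, h1]
      exact h.ne e he i hi
  · intro e he i i' hii hi' x hx hx'
    obtain ⟨g, hg, hxg, -, hc⟩ := hseg e he i (by omega) x hx
    obtain ⟨g', hg', hxg', -, hc'⟩ := hseg e he i' hi' x hx'
    by_cases hee : e = e0
    · subst hee
      have hc1 := hc.resolve_left (fun h9 => h9.1 rfl)
      have hc2 := hc'.resolve_left (fun h9 => h9.1 rfl)
      have hlt : g < g' := by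
        rcases hc1.2 with h3 | h3 | h3 <;> rcases hc2.2 with h4 | h4 | h4 <;> omega
      obtain ⟨h5, h6⟩ := h.arc e he g g' hlt hg' x hxg hxg'
      refine ⟨?_, ?_⟩
      · rcases hc1.2 with h3 | h3 | h3 <;> rcases hc2.2 with h4 | h4 | h4 <;> omega
      · rw [h6]
        simp only [rem, true_and]
        split_ifs with h7
        · congr 1
          rcases hc1.2 with h3 | h3 | h3 <;> rcases hc2.2 with h4 | h4 | h4 <;> omega
        · congr 1
          rcases hc1.2 with h3 | h3 | h3 <;> rcases hc2.2 with h4 | h4 | h4 <;> omega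
    · have hc1 := (hc.resolve_right (fun h9 => hee h9.1)).2
      have hc2 := (hc'.resolve_right (fun h9 => hee h9.1)).2
      subst hc1 hc2
      obtain ⟨h5, h6⟩ := h.arc e he g g' hii hg' x hxg hxg'
      refine ⟨h5, ?_⟩
      rw [h6]
      simp [rem, hee]
  · intro e he w hw i hi hc
    obtain ⟨g, hg, hxg, -, -⟩ := hseg e he i hi _ hc
    exact h.vert e he w hw g hg hxg
  · intro e he f hf hef i hi i' hi' x hx hx'
    obtain ⟨g, hg, hxg, ⟨c, hc⟩, -⟩ := hseg e he i hi x hx
    obtain ⟨g', hg', hxg', ⟨c', hc'⟩, -⟩ := hseg f hf i' hi' x hx'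
    rcases h.cross e he f hf hef g hg g' hg' x hxg hxg' with h3 | h3
    · exact Or.inl h3
    · right
      rw [hc, hc', dot_smul, h3, mul_zero]

/-- every drawing can be changed into one without straight corners, with the same vertices -/
theorem exists_norm {V : Type} [Finite V] {k : ℕ} {G : SimpleGraph V} {D : Dr V}
    (h : IsRAC k G D) : ∃ D' : Dr V, IsRAC k G D' ∧ D'.pos = D.pos ∧
      ∀ e ∈ G.edgeSet, ∀ j < D'.m e, cr (D'.dir e j) (D'.dir e (j + 1)) ≠ 0 := by
  classical
  have hfe : G.edgeSet.Finite := Set.toFinite _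
  have main : ∀ (N : ℕ) (D : Dr V), IsRAC k G D → ∑ e ∈ hfe.toFinset, D.m e = N →
      ∃ D' : Dr V, IsRAC k G D' ∧ D'.pos = D.pos ∧
      ∀ e ∈ G.edgeSet, ∀ j < D'.m e, cr (D'.dir e j) (D'.dir e (j + 1)) ≠ 0 := by
    intro N
    induction N using Nat.strong_induction_on with
    | _ N ih =>
      intro D h hN
      by_cases hb : ∃ e ∈ G.edgeSet, ∃ j < D.m e, cr (D.dir e j) (D.dir e (j + 1)) = 0
      · obtain ⟨e, he, j, hj, hcr⟩ := hb
        have h1 := rem_rac h he hj hcr
        have h2 : ∑ e' ∈ hfe.toFinset, (rem D e j).m e' < N := by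
          rw [← hN]
          refine Finset.sum_lt_sum (fun e' _ => ?_) ⟨e, hfe.mem_toFinset.2 he, ?_⟩
          · simp only [rem]
            split_ifs <;> omega
          · simp only [rem, if_true]
            omega
        obtain ⟨D', hD', hp, hn⟩ := ih _ h2 _ h1 rfl
        exact ⟨D', hD', hp, hn⟩
      · push Not at hb
        exact ⟨D, h, rfl, hb⟩
  exact main _ D h rfl

end Pool.Agent.Lib.RACG
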