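import Pool.Agent.Lib.RACG.Tail
import Pool.Agent.Lib.RACG.Dir
import Pool.Agent.Lib.RACG.Norm

/-!
# Small changes of a drawing with bends (MP_bf8d95_lc)
-/

set_option autoImplicit false

open Filter Topology

namespace Pool.Agent.Lib.RACG

section

variable {V : Type} (D : Dr V) (U W : Sym2 V → V) (τ : Sym2 V → ℝ)

/-- number of corners of the new drawing -/
def m1 (e : Sym2 V) : ℕ := if D.m e = 0 then 1 else D.m e

/-- points on the segments (the first and the last ones are ends of the edge) -/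
def anc (p : V → Pt) (α : Pt → Pt) (e : Sym2 V) (j : ℕ) : Pt :=
  if j = 0 then p (U e) else if j = D.m e then p (W e) else α (D.pt e j)

/-- corners of the new drawing -/
noncomputable def cor (p : V → Pt) (α : Pt → Pt) (ρ : Pt → Pt) (t : Sym2 V → ℝ) (e : Sym2 V)
    (j : ℕ) : Pt :=
  if D.m e = 0 then
    (if j = 0 then p (U e) else if j = 1 then p (U e) + t e • ρ (D.dir e 0) else p (W e))
  else
    (if j = 0 then p (U e) else if j = D.m e + 1 then p (W e) else
      inter (anc D U W p α e (j - 1)) (ρ (D.dir e (j - 1))) (anc D U W p α e j) (ρ (D.dir e j)))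

/-- corners of the old drawing, with the additional corners of the straight edges -/
noncomputable def lim (e : Sym2 V) (j : ℕ) : Pt :=
  if D.m e = 0 then
    (if j = 0 then D.pt e 0 else if j = 1 then D.pt e 0 + τ e • D.dir e 0 else D.pt e 1)
  else D.pt e j

/-- the old segment which contains a new one -/
def old (e : Sym2 V) (i : ℕ) : ℕ := if D.m e = 0 then 0 else i

theorem cor_isQ {p : V → Pt} {α ρ : Pt → Pt} {t : Sym2 V → ℝ} (hp : ∀ v, IsQ (p v))
    (hα : ∀ x, IsQ (α x)) (hρ : ∀ x, IsQ (ρ x)) (ht : ∀ e, IsQn (t e)) (e : Sym2 V) (j : ℕ) :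
    IsQ (cor D U W p α ρ t e j) := by
  have ha : ∀ j, IsQ (anc D U W p α e j) := by
    intro j
    unfold anc
    split_ifs
    · exact hp _
    · exact hp _
    · exact hα _
  unfold cor
  split_ifs
  · exact hp _
  · exact (hp _).add (IsQ.smul (ht _) (hρ _))
  · exact hp _
  · exact hp _
  · exact hp _
  · exact isQ_inter (ha _) (hρ _) (ha _) (hρ _)

end

section

variable {V : Type} {k : ℕ} {G : SimpleGraph V} {D : Dr V} {U W : Sym2 V → V} {τ : Sym2 V → ℝ}

/-- the hypotheses on the chosen data -/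
structure Hyp (G : SimpleGraph V) (D : Dr V) (U W : Sym2 V → V) (τ : Sym2 V → ℝ) : Prop where
  uw : ∀ e ∈ G.edgeSet, e = s(U e, W e) ∧ D.pt e 0 = D.pos (U e) ∧
    D.pt e (D.m e + 1) = D.pos (W e)
  nrm : ∀ e ∈ G.edgeSet, ∀ j < D.m e, cr (D.dir e j) (D.dir e (j + 1)) ≠ 0
  t0 : ∀ e ∈ G.edgeSet, D.m e = 0 → 0 < τ e
  t1 : ∀ e ∈ G.edgeSet, D.m e = 0 → τ e < 1
  tl : ∀ e ∈ G.edgeSet, D.m e = 0 → ∀ f ∈ G.edgeSet, e ≠ f → ∀ j ≤ D.m f, ∀ x,
      x ∈ segment ℝ (D.pt e 0 + τ e • D.dir e 0) (D.pt e 1) → x ∈ D.sg f j → x = D.pt e 1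

theorem lim_sub (hH : Hyp G D U W τ) {e : Sym2 V} (he : e ∈ G.edgeSet) {i : ℕ}
    (hi : i ≤ m1 D e) : old D e i ≤ D.m e ∧ ∀ x,
    x ∈ segment ℝ (lim D τ e i) (lim D τ e (i + 1)) → x ∈ D.sg e (old D e i) := by
  by_cases hm : D.m e = 0
  · have ho : old D e i = 0 := by simp [old, hm]
    have hm1 : m1 D e = 1 := by simp [m1, hm]
    rw [ho]
    refine ⟨Nat.zero_le _, ?_⟩
    intro x hx
    have ht0 := hH.t0 e he hm
    have ht1 := hH.t1 e he hm
    have hP1 : D.pt e 1 = D.pt e 0 + D.dir e 0 := by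
      unfold Dr.dir
      rw [zero_add]
      abel
    rw [hm1] at hi
    have hi' : i = 0 ∨ i = 1 := by omega
    rcases hi' with rfl | rfl
    · have h1 : lim D τ e 0 = D.pt e 0 := by simp [lim, hm]
      have h2 : lim D τ e (0 + 1) = D.pt e 0 + τ e • D.dir e 0 := by simp [lim, hm]
      rw [h1, h2] at hx
      obtain ⟨s, hs0, hs1, rfl⟩ := mem_seg.1 hx
      refine mem_seg.2 ⟨s * τ e, by positivity, by nlinarith, ?_⟩
      rw [zero_add, hP1]
      module
    · have h1 : lim D τ e 1 = D.pt e 0 + τ e • D.dir e 0 := by simp [lim, hm]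
      have h2 : lim D τ e (1 + 1) = D.pt e 1 := by simp [lim, hm]
      rw [h1, h2] at hx
      obtain ⟨s, hs0, hs1, rfl⟩ := mem_seg.1 hx
      refine mem_seg.2 ⟨τ e + s * (1 - τ e), by nlinarith, by nlinarith, ?_⟩
      rw [zero_add, hP1]
      module
  · have ho : old D e i = i := by simp [old, hm]
    have hm1 : m1 D e = D.m e := by simp [m1, hm]
    rw [ho]
    refine ⟨by omega, ?_⟩
    intro x hx
    have h1 : ∀ j, lim D τ e j = D.pt e j := by
      intro j
      simp [lim, hm]
    rw [h1, h1] at hx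
    exact hx

theorem lim_pre (h : IsRAC k G D) (hH : Hyp G D U W τ) : Pre G D.pos (m1 D) (lim D τ) := by
  refine ⟨h.inj, ?_, ?_, ?_, ?_⟩
  · intro e he
    obtain ⟨h1, h2, h3⟩ := hH.uw e he
    refine ⟨U e, W e, h1, ?_, ?_⟩
    · rw [← h2]
      simp [lim]
    · rw [← h3]
      by_cases hm : D.m e = 0
      · simp [lim, m1, hm]
      · simp [lim, m1, hm]
  · intro e he i hi
    by_cases hm : D.m e = 0
    · have hm1 : m1 D e = 1 := by simp [m1, hm]
      have ht0 := hH.t0 e he hm
      have ht1 := hH.t1 e he hm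
      have hd : D.dir e 0 ≠ 0 := by
        unfold Dr.dir
        exact sub_ne_zero.2 (h.ne e he 0 (Nat.zero_le _)).symm
      have hP1 : D.pt e 1 = D.pt e 0 + D.dir e 0 := by
        unfold Dr.dir
        rw [zero_add]
        abel
      rw [hm1] at hi
      have hi' : i = 0 ∨ i = 1 := by omega
      rcases hi' with rfl | rfl
      · have h1 : lim D τ e 0 = D.pt e 0 := by simp [lim, hm]
        have h2 : lim D τ e (0 + 1) = D.pt e 0 + τ e • D.dir e 0 := by simp [lim, hm]
        rw [h1, h2]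
        intro hc
        have h3 : τ e • D.dir e 0 = 0 := by
          have := congrArg (fun z => z - D.pt e 0) hc
          simpa using this.symm
        rcases smul_eq_zero.1 h3 with h4 | h4
        · exact ht0.ne' h4
        · exact hd h4
      · have h1 : lim D τ e 1 = D.pt e 0 + τ e • D.dir e 0 := by simp [lim, hm]
        have h2 : lim D τ e (1 + 1) = D.pt e 1 := by simp [lim, hm]
        rw [h1, h2, hP1]
        intro hc
        have h3 : (1 - τ e) • D.dir e 0 = 0 := by
          have h4 := congrArg (fun z => z - D.pt e 0) hc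
          simp only [add_sub_cancel_left] at h4
          rw [sub_smul, one_smul, h4, sub_self]
        rcases smul_eq_zero.1 h3 with h4 | h4
        · linarith
        · exact hd h4
    · have hm1 : m1 D e = D.m e := by simp [m1, hm]
      have h1 : ∀ j, lim D τ e j = D.pt e j := by
        intro j
        simp [lim, hm]
      rw [h1, h1]
      exact h.ne e he i (by omega)
  · intro e he i j hij hj x hx hx'
    by_cases hm : D.m e = 0
    · have hm1 : m1 D e = 1 := by simp [m1, hm]
      have ht0 := hH.t0 e he hm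
      have ht1 := hH.t1 e he hm
      have hd : D.dir e 0 ≠ 0 := by
        unfold Dr.dir
        exact sub_ne_zero.2 (h.ne e he 0 (Nat.zero_le _)).symm
      have hP1 : D.pt e 1 = D.pt e 0 + D.dir e 0 := by
        unfold Dr.dir
        rw [zero_add]
        abel
      have hi0 : i = 0 := by omega
      have hj1 : j = 1 := by omega
      subst hi0 hj1
      refine ⟨rfl, ?_⟩
      have h1 : lim D τ e 0 = D.pt e 0 := by simp [lim, hm]
      have h2 : lim D τ e 1 = D.pt e 0 + τ e • D.dir e 0 := by simp [lim, hm]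
      have h3 : lim D τ e (1 + 1) = D.pt e 1 := by simp [lim, hm]
      rw [h1, zero_add, h2] at hx
      rw [h2, h3] at hx'
      rw [h2]
      obtain ⟨s, hs0, hs1, hs⟩ := mem_seg.1 hx
      obtain ⟨t, ht0', ht1', ht⟩ := mem_seg.1 hx'
      have h4 : (τ e + t * (1 - τ e) - s * τ e) • D.dir e 0 = 0 := by
        have h5 : x - x = (τ e + t * (1 - τ e) - s * τ e) • D.dir e 0 := by
          conv_lhs => rw [ht]
          conv_lhs => rhs; rw [← ht, hs]
          rw [hP1]
          module
        rw [← h5, sub_self]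
      rcases smul_eq_zero.1 h4 with h5 | h5
      · have h6 : s = 1 := by nlinarith
        rw [hs, h6]
        module
      · exact absurd h5 hd
    · have hm1 : m1 D e = D.m e := by simp [m1, hm]
      have h1 : ∀ j, lim D τ e j = D.pt e j := by
        intro j
        simp [lim, hm]
      rw [h1, h1] at hx hx'
      rw [h1]
      exact h.arc e he i j hij (by omega) x hx hx'
  · intro e he w hw i hi hc
    obtain ⟨h1, h2⟩ := lim_sub hH he hi
    exact h.vert e he w hw _ h1 (h2 _ hc)

/-- the new corners tend to the old ones -/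
theorem cor_tendsto (hH : Hyp G D U W τ) {ι : Type*} {l : Filter ι}
    {p : ι → V → Pt} {α ρ : ι → Pt → Pt} {t : ι → Sym2 V → ℝ}
    (hp : ∀ v, Tendsto (fun n => p n v) l (𝓝 (D.pos v)))
    (hα : ∀ x, Tendsto (fun n => α n x) l (𝓝 x))
    (hρ : ∀ x, Tendsto (fun n => ρ n x) l (𝓝 x))
    (ht : ∀ e, Tendsto (fun n => t n e) l (𝓝 (τ e))) {e : Sym2 V} (he : e ∈ G.edgeSet) {j : ℕ}
    (hj : j ≤ m1 D e + 1) :
    Tendsto (fun n => cor D U W (p n) (α n) (ρ n) (t n) e j) l (𝓝 (lim D τ e j)) := by
  obtain ⟨h1, h2, h3⟩ := hH.uw e he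
  by_cases hm : D.m e = 0
  · rw [hm, zero_add] at h3
    simp only [cor, lim, hm, if_true]
    split_ifs
    · rw [h2]
      exact hp _
    · rw [h2]
      exact (hp _).add ((ht e).smul (hρ _))
    · rw [h3]
      exact hp _
  · have hm1 : m1 D e = D.m e := by simp [m1, hm]
    rw [hm1] at hj
    simp only [cor, lim, hm, if_false]
    split_ifs with h4 h5
    · rw [h4, h2]
      exact hp _
    · rw [h5, h3]
      exact hp _
    · have hanc : ∀ i, Tendsto (fun n => anc D U W (p n) (α n) e i) l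
          (𝓝 (anc D U W D.pos id e i)) := by
        intro i
        unfold anc
        split_ifs
        · exact hp _
        · exact hp _
        · exact hα _
      have hcr : cr (D.dir e (j - 1)) (D.dir e j) ≠ 0 := by
        have := hH.nrm e he (j - 1) (by omega)
        rwa [show j - 1 + 1 = j by omega] at this
      have hP : inter (anc D U W D.pos id e (j - 1)) (D.dir e (j - 1))
          (anc D U W D.pos id e j) (D.dir e j) = D.pt e j := by
        refine inter_of hcr (s := 1) (t := if j = D.m e then -1 else 0) ?_ ?_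
        · have h6 : anc D U W D.pos id e (j - 1) = D.pt e (j - 1) := by
            unfold anc
            split_ifs with h7 h8
            · rw [h7, h2]
            · omega
            · rfl
          rw [h6]
          unfold Dr.dir
          rw [show j - 1 + 1 = j by omega]
          module
        · by_cases h7 : j = D.m e
          · rw [if_pos h7]
            unfold anc
            rw [if_neg h4, if_pos h7, ← h3]
            unfold Dr.dir
            rw [← h7]
            module
          · rw [if_neg h7]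
            unfold anc
            rw [if_neg h4, if_neg h7]
            simp
      rw [← hP]
      exact inter_tendsto (hanc _) (hρ _) (hanc _) (hρ _) hcr

/-- the new segments have the chosen directions -/
theorem cor_dir (hH : Hyp G D U W τ) {ι : Type*} {l : Filter ι}
    {p : ι → V → Pt} {α ρ : ι → Pt → Pt} {t : ι → Sym2 V → ℝ}
    (hρ : ∀ x, Tendsto (fun n => ρ n x) l (𝓝 x)) {e : Sym2 V} (he : e ∈ G.edgeSet) {i : ℕ}
    (hi : i ≤ m1 D e) (hni : ¬ (D.m e = 0 ∧ i = 1)) :
    ∀ᶠ n in l, ∃ c : ℝ, cor D U W (p n) (α n) (ρ n) (t n) e (i + 1) -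
      cor D U W (p n) (α n) (ρ n) (t n) e i = c • ρ n (D.dir e (old D e i)) := by
  by_cases hm : D.m e = 0
  · have hm1 : m1 D e = 1 := by simp [m1, hm]
    have hi0 : i = 0 := by
      have : i ≠ 1 := fun h7 => hni ⟨hm, h7⟩
      omega
    subst hi0
    refine Eventually.of_forall fun n => ⟨t n e, ?_⟩
    have ho : old D e 0 = 0 := by simp [old, hm]
    rw [ho]
    simp [cor, hm]
  · have hm1 : m1 D e = D.m e := by simp [m1, hm]
    have ho : old D e i = i := by simp [old, hm]
    rw [hm1] at hi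
    have h1 : ∀ᶠ n in l, 0 < i → cr (ρ n (D.dir e (i - 1))) (ρ n (D.dir e i)) ≠ 0 := by
      by_cases h2 : 0 < i
      · have hcr : cr (D.dir e (i - 1)) (D.dir e i) ≠ 0 := by
          have := hH.nrm e he (i - 1) (by omega)
          rwa [show i - 1 + 1 = i by omega] at this
        filter_upwards [(cr_tendsto (hρ _) (hρ _)).eventually
          (isOpen_ne.mem_nhds hcr)] with n hn _
        exact hn
      · exact Eventually.of_forall fun n hn => absurd hn h2
    filter_upwards [h1] with n hn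
    rw [ho]
    have h3 : ∃ c : ℝ, cor D U W (p n) (α n) (ρ n) (t n) e i =
        anc D U W (p n) (α n) e i + c • ρ n (D.dir e i) := by
      by_cases h4 : i = 0
      · refine ⟨0, ?_⟩
        rw [zero_smul, add_zero]
        simp [cor, anc, hm, h4]
      · refine ⟨cr (anc D U W (p n) (α n) e i - anc D U W (p n) (α n) e (i - 1))
          (ρ n (D.dir e (i - 1))) / cr (ρ n (D.dir e (i - 1))) (ρ n (D.dir e i)), ?_⟩
        rw [← inter_eq (hn (Nat.pos_of_ne_zero h4))]
        simp only [cor, hm, if_false, h4]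
        rw [if_neg (by omega)]
    have h5 : ∃ c : ℝ, cor D U W (p n) (α n) (ρ n) (t n) e (i + 1) =
        anc D U W (p n) (α n) e i + c • ρ n (D.dir e i) := by
      by_cases h4 : i = D.m e
      · refine ⟨0, ?_⟩
        rw [zero_smul, add_zero, h4]
        simp [cor, anc, hm]
      · refine ⟨cr (anc D U W (p n) (α n) e (i + 1) - anc D U W (p n) (α n) e i)
          (ρ n (D.dir e (i + 1))) / cr (ρ n (D.dir e i)) (ρ n (D.dir e (i + 1))), ?_⟩
        simp only [cor, hm, if_false]
        rw [if_neg (by omega), if_neg (by omega)]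
        rw [show i + 1 - 1 = i by omega]
        rfl
    obtain ⟨c, hc⟩ := h3
    obtain ⟨c', hc'⟩ := h5
    refine ⟨c' - c, ?_⟩
    rw [hc, hc']
    module

end

/-- small changes of a drawing with at most `k ≥ 1` bends on each edge -/
theorem pert {V : Type} [Finite V] {k : ℕ} (hk : 1 ≤ k) {G : SimpleGraph V} {D : Dr V}
    (h : IsRAC k G D) : ∃ (m' : Sym2 V → ℕ) (C : (V → Pt) → (Pt → Pt) → (Pt → Pt) → (ℝ → ℝ) →
      Sym2 V → ℕ → Pt),
      (∀ p α ρ σ, (∀ v, IsQ (p v)) → (∀ x, IsQ (α x)) → (∀ x, IsQ (ρ x)) → (∀ x, IsQn (σ x)) →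
        ∀ e j, IsQ (C p α ρ σ e j)) ∧
      ∀ (ι : Type) (l : Filter ι) (p : ι → V → Pt) (α ρ : ι → Pt → Pt) (σ : ι → ℝ → ℝ),
        (∀ v, Tendsto (fun n => p n v) l (𝓝 (D.pos v))) →
        (∀ x, Tendsto (fun n => α n x) l (𝓝 x)) → (∀ x, Tendsto (fun n => ρ n x) l (𝓝 x)) →
        (∀ x, Tendsto (fun n => σ n x) l (𝓝 x)) →
        (∀ n d d', d ≠ 0 → d' ≠ 0 → dot d d' = 0 → dot (ρ n d) (ρ n d') = 0) →
        ∀ᶠ n in l, IsRAC k G ⟨p n, m', C (p n) (α n) (ρ n) (σ n)⟩ := by
  classical
  obtain ⟨D', h', hp, hn⟩ : ∃ D' : Dr V, IsRAC k G D' ∧ D'.pos = D.pos ∧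
      ∀ e ∈ G.edgeSet, ∀ j < D'.m e, cr (D'.dir e j) (D'.dir e (j + 1)) ≠ 0 := exists_norm h
  have hUW : ∀ e : Sym2 V, ∃ u w : V, e ∈ G.edgeSet → e = s(u, w) ∧ D'.pt e 0 = D'.pos u ∧
      D'.pt e (D'.m e + 1) = D'.pos w := by
    intro e
    by_cases he : e ∈ G.edgeSet
    · obtain ⟨u, w, h1⟩ := h'.ends e he
      exact ⟨u, w, fun _ => h1⟩
    · induction e using Sym2.ind with
      | _ a b => exact ⟨a, b, fun h1 => absurd h1 he⟩
  choose U W hUW using hUW
  have hT : ∀ e : Sym2 V, ∃ τ : ℝ, e ∈ G.edgeSet → D'.m e = 0 → 0 < τ ∧ τ < 1 ∧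
      ∀ f ∈ G.edgeSet, e ≠ f → ∀ j ≤ D'.m f, ∀ x,
      x ∈ segment ℝ (D'.pt e 0 + τ • D'.dir e 0) (D'.pt e 1) → x ∈ D'.sg f j →
      x = D'.pt e 1 := by
    intro e
    by_cases he : e ∈ G.edgeSet
    · by_cases hm : D'.m e = 0
      · obtain ⟨τ, h1⟩ := tail h' he hm
        exact ⟨τ, fun _ _ => h1⟩
      · exact ⟨0, fun _ h2 => absurd h2 hm⟩
    · exact ⟨0, fun h1 => absurd h1 he⟩
  choose τ hT using hT
  have hH : Hyp G D' U W τ := ⟨hUW, hn, fun e he hm => (hT e he hm).1,
    fun e he hm => (hT e he hm).2.1, fun e he hm => (hT e he hm).2.2⟩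
  refine ⟨m1 D', fun p α ρ σ => cor D' U W p α ρ (fun e => σ (τ e)), ?_, ?_⟩
  · intro p α ρ σ hp' hα hρ hσ e j
    exact cor_isQ D' U W hp' hα hρ (fun e => hσ _) e j
  · intro ι l p α ρ σ hp' hα hρ hσ hperp
    rw [← hp] at hp'
    have hd : ∀ e ∈ G.edgeSet, ∀ i ≤ D'.m e, D'.dir e i ≠ 0 := by
      intro e he i hi
      unfold Dr.dir
      exact sub_ne_zero.2 (h'.ne e he i hi).symm
    refine stab (lim_pre h' hH) ?_ hp' ?_ ?_ ?_ ?_
    · intro e he
      have := h'.le e he
      unfold m1
      split_ifs <;> omega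
    · intro e he j hj
      exact cor_tendsto hH hp' hα hρ (fun e => hσ _) he hj
    · intro e he u hu n
      have h1 : D'.pos (U e) = D'.pos u := by
        rw [← (hUW e he).2.1, ← hu]
        simp [lim]
      rw [← h'.inj h1]
      simp [cor]
    · intro e he u hu n
      have h1 : D'.pos (W e) = D'.pos u := by
        rw [← (hUW e he).2.2, ← hu]
        by_cases hm : D'.m e = 0
        · simp [lim, m1, hm]
        · simp [lim, m1, hm]
      rw [← h'.inj h1]
      by_cases hm : D'.m e = 0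
      · simp [cor, m1, hm]
      · simp [cor, m1, hm]
    · intro e he f hf hef i hi j hj x hx hx'
      obtain ⟨ho1, hs1⟩ := lim_sub hH he hi
      obtain ⟨ho2, hs2⟩ := lim_sub hH hf hj
      have hx1 := hs1 x hx
      have hx2 := hs2 x hx'
      by_cases ht1 : D'.m e = 0 ∧ i = 1
      · left
        obtain ⟨hm, rfl⟩ := ht1
        have h1 : lim D' τ e 1 = D'.pt e 0 + τ e • D'.dir e 0 := by simp [lim, hm]
        have h2 : lim D' τ e (1 + 1) = D'.pt e 1 := by simp [lim, hm]
        rw [h1, h2] at hx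
        refine ⟨W e, ?_⟩
        have h3 := (hUW e he).2.2
        rw [hm, zero_add] at h3
        rw [← h3]
        exact hH.tl e he hm f hf hef _ ho2 x hx hx2
      by_cases ht2 : D'.m f = 0 ∧ j = 1
      · left
        obtain ⟨hm, rfl⟩ := ht2
        have h1 : lim D' τ f 1 = D'.pt f 0 + τ f • D'.dir f 0 := by simp [lim, hm]
        have h2 : lim D' τ f (1 + 1) = D'.pt f 1 := by simp [lim, hm]
        rw [h1, h2] at hx'
        refine ⟨W f, ?_⟩
        have h3 := (hUW f hf).2.2
        rw [hm, zero_add] at h3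
        rw [← h3]
        exact hH.tl f hf hm e he (Ne.symm hef) _ ho1 x hx' hx1
      rcases h'.cross e he f hf hef _ ho1 _ ho2 x hx1 hx2 with h3 | h3
      · exact Or.inl h3
      · right
        filter_upwards [cor_dir hH hρ he hi ht1 (p := p) (α := α) (t := fun n e => σ n (τ e)),
          cor_dir hH hρ hf hj ht2 (p := p) (α := α) (t := fun n e => σ n (τ e))] with n hn1 hn2
        obtain ⟨c, hc⟩ := hn1
        obtain ⟨c', hc'⟩ := hn2
        rw [hc, hc', dot_smul,
          hperp n _ _ (hd e he _ ho1) (hd f hf _ ho2) h3, mul_zero]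

end Pool.Agent.Lib.RACG
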