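import Pool.Agent.Lib.RACG.Defs

/-!
# Segments under small changes of their ends (MP_bf8d95_lc)
-/

set_option autoImplicit false

open Filter Topology

namespace Pool.Agent.Lib.RACG

theorem mem_seg {a b x : Pt} : x ∈ segment ℝ a b ↔ ∃ t : ℝ, 0 ≤ t ∧ t ≤ 1 ∧ x = a + t • (b - a) := by
  rw [segment_eq_image']
  constructor
  · rintro ⟨t, ht, rfl⟩
    exact ⟨t, ht.1, ht.2, rfl⟩
  · rintro ⟨t, h0, h1, rfl⟩
    exact ⟨t, ⟨h0, h1⟩, rfl⟩

/-- disjoint segments stay disjoint -/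
theorem disj_ev {ι : Type*} {l : Filter ι} {a b c d : ι → Pt} {a0 b0 c0 d0 : Pt}
    (ha : Tendsto a l (𝓝 a0)) (hb : Tendsto b l (𝓝 b0)) (hc : Tendsto c l (𝓝 c0))
    (hd : Tendsto d l (𝓝 d0)) (h : ∀ x, x ∈ segment ℝ a0 b0 → x ∉ segment ℝ c0 d0) :
    ∀ᶠ i in l, ∀ x, x ∈ segment ℝ (a i) (b i) → x ∉ segment ℝ (c i) (d i) := by
  let F : (Set.Icc (0 : ℝ) 1 × Set.Icc (0 : ℝ) 1) × ((Pt × Pt) × (Pt × Pt)) → Pt := fun p =>
    (p.2.1.1 + (p.1.1 : ℝ) • (p.2.1.2 - p.2.1.1)) - (p.2.2.1 + (p.1.2 : ℝ) • (p.2.2.2 - p.2.2.1))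
  have hF : Continuous F := by
    simp only [F]
    fun_prop
  have hcl : IsClosed {p : (Set.Icc (0 : ℝ) 1 × Set.Icc (0 : ℝ) 1) × ((Pt × Pt) × (Pt × Pt)) |
      F p = 0} := isClosed_eq hF continuous_const
  have himg := isClosedMap_snd_of_compactSpace _ hcl
  have hlim : Tendsto (fun i => ((a i, b i), (c i, d i))) l (𝓝 ((a0, b0), (c0, d0))) :=
    (ha.prodMk_nhds hb).prodMk_nhds (hc.prodMk_nhds hd)
  have hnot : ((a0, b0), (c0, d0)) ∉ Prod.snd '' {p : (Set.Icc (0 : ℝ) 1 × Set.Icc (0 : ℝ) 1) ×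
      ((Pt × Pt) × (Pt × Pt)) | F p = 0} := by
    rintro ⟨⟨⟨s, t⟩, q⟩, hq, rfl⟩
    have hq' : (a0 + (s : ℝ) • (b0 - a0)) - (c0 + (t : ℝ) • (d0 - c0)) = 0 := hq
    refine h (a0 + (s : ℝ) • (b0 - a0)) (mem_seg.2 ⟨s, s.2.1, s.2.2, rfl⟩)
      (mem_seg.2 ⟨t, t.2.1, t.2.2, sub_eq_zero.1 hq'⟩)
  have hev := hlim.eventually (himg.isOpen_compl.mem_nhds hnot)
  filter_upwards [hev] with i hi x hx hx'
  obtain ⟨s, hs0, hs1, rfl⟩ := mem_seg.1 hx
  obtain ⟨t, ht0, ht1, ht⟩ := mem_seg.1 hx'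
  refine hi ⟨((⟨s, hs0, hs1⟩, ⟨t, ht0, ht1⟩), ((a i, b i), (c i, d i))), ?_, rfl⟩
  show (a i + s • (b i - a i)) - (c i + t • (d i - c i)) = 0
  rw [ht, sub_self]

/-- two segments with a common end which meet only there keep this property -/
theorem fan_ev {ι : Type*} {l : Filter ι} {a b c : ι → Pt} {a0 b0 c0 : Pt}
    (ha : Tendsto a l (𝓝 a0)) (hb : Tendsto b l (𝓝 b0)) (hc : Tendsto c l (𝓝 c0))
    (hab : a0 ≠ b0) (hac : a0 ≠ c0)
    (h : ∀ x, x ∈ segment ℝ a0 b0 → x ∈ segment ℝ a0 c0 → x = a0) :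
    ∀ᶠ i in l, ∀ x, x ∈ segment ℝ (a i) (b i) → x ∈ segment ℝ (a i) (c i) → x = a i := by
  let K := {p : Set.Icc (0 : ℝ) 1 × Set.Icc (0 : ℝ) 1 | (p.1 : ℝ) = 1 ∨ (p.2 : ℝ) = 1}
  have hK : IsClosed K := by
    refine IsClosed.union (isClosed_eq ?_ continuous_const) (isClosed_eq ?_ continuous_const)
    · fun_prop
    · fun_prop
  let F : (Set.Icc (0 : ℝ) 1 × Set.Icc (0 : ℝ) 1) × (Pt × Pt) → Pt := fun p =>
    (p.1.1 : ℝ) • p.2.1 - (p.1.2 : ℝ) • p.2.2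
  have hF : Continuous F := by
    simp only [F]
    fun_prop
  have hcl : IsClosed {p : (Set.Icc (0 : ℝ) 1 × Set.Icc (0 : ℝ) 1) × (Pt × Pt) |
      p.1 ∈ K ∧ F p = 0} := (hK.preimage continuous_fst).inter (isClosed_eq hF continuous_const)
  have himg := isClosedMap_snd_of_compactSpace _ hcl
  have hlim : Tendsto (fun i => (b i - a i, c i - a i)) l (𝓝 (b0 - a0, c0 - a0)) :=
    (hb.sub ha).prodMk_nhds (hc.sub ha)
  have hnot : (b0 - a0, c0 - a0) ∉ Prod.snd '' {p : (Set.Icc (0 : ℝ) 1 × Set.Icc (0 : ℝ) 1) ×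
      (Pt × Pt) | p.1 ∈ K ∧ F p = 0} := by
    rintro ⟨⟨⟨s, t⟩, q⟩, ⟨hk, hq⟩, rfl⟩
    have hq' : (s : ℝ) • (b0 - a0) - (t : ℝ) • (c0 - a0) = 0 := hq
    have h1 : a0 + (s : ℝ) • (b0 - a0) = a0 := by
      refine h _ (mem_seg.2 ⟨s, s.2.1, s.2.2, rfl⟩) (mem_seg.2 ⟨t, t.2.1, t.2.2, ?_⟩)
      rw [sub_eq_zero.1 hq']
    have h2 : (s : ℝ) • (b0 - a0) = 0 := by
      have := congrArg (fun z => z - a0) h1
      simpa using this
    have h3 : (t : ℝ) • (c0 - a0) = 0 := by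
      rw [h2, zero_sub, neg_eq_zero] at hq'
      exact hq'
    rcases hk with hk | hk
    · have hk' : (s : ℝ) = 1 := hk
      rw [hk', one_smul, sub_eq_zero] at h2
      exact hab h2.symm
    · have hk' : (t : ℝ) = 1 := hk
      rw [hk', one_smul, sub_eq_zero] at h3
      exact hac h3.symm
  have hev := hlim.eventually (himg.isOpen_compl.mem_nhds hnot)
  filter_upwards [hev] with i hi x hx hx'
  obtain ⟨s, hs0, hs1, rfl⟩ := mem_seg.1 hx
  obtain ⟨t, ht0, ht1, ht⟩ := mem_seg.1 hx'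
  have h5 : s • (b i - a i) = t • (c i - a i) := by
    have := congrArg (fun z => z - a i) ht
    simpa using this
  by_cases hst : s = 0 ∧ t = 0
  · rw [hst.1]
    simp
  exfalso
  have hM : 0 < max s t := by
    rcases hs0.lt_or_eq with h6 | h6
    · exact lt_max_of_lt_left h6
    · rcases ht0.lt_or_eq with h7 | h7
      · exact lt_max_of_lt_right h7
      · exact absurd ⟨h6.symm, h7.symm⟩ hst
  refine hi ⟨((⟨s / max s t, by positivity, (div_le_one hM).2 (le_max_left _ _)⟩,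
    ⟨t / max s t, by positivity, (div_le_one hM).2 (le_max_right _ _)⟩), (b i - a i, c i - a i)),
    ⟨?_, ?_⟩, rfl⟩
  · rcases le_total s t with h8 | h8
    · right
      show t / max s t = 1
      rw [max_eq_right h8] at hM ⊢
      exact div_self hM.ne'
    · left
      show s / max s t = 1
      rw [max_eq_left h8] at hM ⊢
      exact div_self hM.ne'
  · show (s / max s t) • (b i - a i) - (t / max s t) • (c i - a i) = 0
    rw [div_eq_inv_mul, div_eq_inv_mul, mul_smul, mul_smul, h5, sub_self]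

end Pool.Agent.Lib.RACG
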