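import Pool.Agent.Lib.RACG.SegA

/-!
# Drawings near a drawing are drawings (MP_bf8d95_lc)
-/

set_option autoImplicit false

open Filter Topology

namespace Pool.Agent.Lib.RACG

/-- the limit data: polygonal curves which form a drawing, except that common points of two edges need
not be right angle crossings -/
structure Pre {V : Type} (G : SimpleGraph V) (pos : V → Pt) (m : Sym2 V → ℕ)
    (Q : Sym2 V → ℕ → Pt) : Prop where
  inj : Function.Injective pos
  ends : ∀ e ∈ G.edgeSet, ∃ u v : V, e = s(u, v) ∧ Q e 0 = pos u ∧ Q e (m e + 1) = pos v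
  ne : ∀ e ∈ G.edgeSet, ∀ i ≤ m e, Q e i ≠ Q e (i + 1)
  arc : ∀ e ∈ G.edgeSet, ∀ i j : ℕ, i < j → j ≤ m e → ∀ x,
    x ∈ segment ℝ (Q e i) (Q e (i + 1)) → x ∈ segment ℝ (Q e j) (Q e (j + 1)) →
    j = i + 1 ∧ x = Q e j
  vert : ∀ e ∈ G.edgeSet, ∀ w, w ∉ e → ∀ i ≤ m e, pos w ∉ segment ℝ (Q e i) (Q e (i + 1))

/-- a vertex on an edge is an end of this edge, and lies on the first or the last segment only -/
theorem Pre.vend {V : Type} {G : SimpleGraph V} {pos : V → Pt} {m : Sym2 V → ℕ}
    {Q : Sym2 V → ℕ → Pt} (h : Pre G pos m Q) {e : Sym2 V} (he : e ∈ G.edgeSet) {i : ℕ}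
    (hi : i ≤ m e) {w : V} (hw : pos w ∈ segment ℝ (Q e i) (Q e (i + 1))) :
    w ∈ e ∧ ((i = 0 ∧ pos w = Q e 0) ∨ (i = m e ∧ pos w = Q e (m e + 1))) := by
  have hwe : w ∈ e := by
    by_contra hc
    exact h.vert e he w hc i hi hw
  refine ⟨hwe, ?_⟩
  obtain ⟨u, v, huv, h0, h1⟩ := h.ends e he
  rw [huv] at hwe
  rcases Sym2.mem_iff.1 hwe with rfl | rfl
  · left
    refine ⟨?_, h0.symm⟩
    by_contra hc
    have h2 := h.arc e he 0 i (Nat.pos_of_ne_zero hc) hi (pos w)
      (by rw [← h0]; exact left_mem_segment ℝ _ _) hw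
    have h3 : Q e 0 = Q e 1 := by
      rw [h0, h2.2, h2.1]
    exact h.ne e he 0 (Nat.zero_le _) h3
  · right
    refine ⟨?_, h1.symm⟩
    by_contra hc
    have h2 := h.arc e he i (m e) (lt_of_le_of_ne hi hc) le_rfl (pos w) hw
      (by rw [← h1]; exact right_mem_segment ℝ _ _)
    have h3 : Q e (m e) = Q e (m e + 1) := by
      rw [h1, ← h2.2]
    exact h.ne e he (m e) le_rfl h3

theorem sym2_eq {V : Type} {e f : Sym2 V} {u w : V} (huw : u ≠ w) (hu : u ∈ e) (hw : w ∈ e)
    (hu' : u ∈ f) (hw' : w ∈ f) : e = f := by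
  rw [(Sym2.mem_and_mem_iff huw).1 ⟨hu, hw⟩, (Sym2.mem_and_mem_iff huw).1 ⟨hu', hw'⟩]

/-- the stability theorem -/
theorem stab {V : Type} [Finite V] {G : SimpleGraph V} {ι : Type*} {l : Filter ι} {k : ℕ}
    {pos : V → Pt} {m : Sym2 V → ℕ} {Q : Sym2 V → ℕ → Pt} (h : Pre G pos m Q)
    (hk : ∀ e ∈ G.edgeSet, m e ≤ k) {pos' : ι → V → Pt} {Q' : ι → Sym2 V → ℕ → Pt}
    (hpos : ∀ v, Tendsto (fun n => pos' n v) l (𝓝 (pos v)))
    (hQ : ∀ e ∈ G.edgeSet, ∀ j ≤ m e + 1, Tendsto (fun n => Q' n e j) l (𝓝 (Q e j)))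
    (h0 : ∀ e ∈ G.edgeSet, ∀ u, Q e 0 = pos u → ∀ n, Q' n e 0 = pos' n u)
    (h1 : ∀ e ∈ G.edgeSet, ∀ u, Q e (m e + 1) = pos u → ∀ n, Q' n e (m e + 1) = pos' n u)
    (hcross : ∀ e ∈ G.edgeSet, ∀ f ∈ G.edgeSet, e ≠ f → ∀ i ≤ m e, ∀ j ≤ m f, ∀ x,
      x ∈ segment ℝ (Q e i) (Q e (i + 1)) → x ∈ segment ℝ (Q f j) (Q f (j + 1)) →
      (∃ w, x = pos w) ∨
        ∀ᶠ n in l, dot (Q' n e (i + 1) - Q' n e i) (Q' n f (j + 1) - Q' n f j) = 0) :
    ∀ᶠ n in l, IsRAC k G ⟨pos' n, m, Q' n⟩ := by
  have hfe : G.edgeSet.Finite := Set.toFinite _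
  -- the conditions one by one
  have c_inj : ∀ᶠ n in l, Function.Injective (pos' n) := by
    have h2 : ∀ u v : V, ∀ᶠ n in l, u ≠ v → pos' n u ≠ pos' n v := by
      intro u v
      by_cases huv : u = v
      · exact Eventually.of_forall fun n hn => absurd huv hn
      · have h3 : pos u ≠ pos v := fun h4 => huv (h.inj h4)
        filter_upwards [((hpos u).prodMk_nhds (hpos v)).eventually
          ((isOpen_ne_fun continuous_fst continuous_snd).mem_nhds h3)] with n hn _
        exact hn
    have h3 : ∀ᶠ n in l, ∀ u v : V, u ≠ v → pos' n u ≠ pos' n v := by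
      rw [eventually_all]
      intro u
      rw [eventually_all]
      exact h2 u
    filter_upwards [h3] with n hn u v huv
    by_contra hc
    exact hn u v hc huv
  have c_ne : ∀ᶠ n in l, ∀ e ∈ G.edgeSet, ∀ i ∈ Finset.range (m e + 1),
      Q' n e i ≠ Q' n e (i + 1) := by
    rw [eventually_all_finite hfe]
    intro e he
    rw [eventually_all_finset]
    intro i hi
    have hi' : i ≤ m e := Nat.lt_succ_iff.1 (Finset.mem_range.1 hi)
    have h3 := h.ne e he i hi'
    exact ((hQ e he i (by omega)).prodMk_nhds (hQ e he (i + 1) (by omega))).eventually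
      ((isOpen_ne_fun continuous_fst continuous_snd).mem_nhds h3)
  have c_arc : ∀ᶠ n in l, ∀ e ∈ G.edgeSet, ∀ i ∈ Finset.range (m e + 1),
      ∀ j ∈ Finset.range (m e + 1), i < j → ∀ x, x ∈ segment ℝ (Q' n e i) (Q' n e (i + 1)) →
      x ∈ segment ℝ (Q' n e j) (Q' n e (j + 1)) → j = i + 1 ∧ x = Q' n e j := by
    rw [eventually_all_finite hfe]
    intro e he
    rw [eventually_all_finset]
    intro i hi
    rw [eventually_all_finset]
    intro j hj
    have hi' : i ≤ m e := Nat.lt_succ_iff.1 (Finset.mem_range.1 hi)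
    have hj' : j ≤ m e := Nat.lt_succ_iff.1 (Finset.mem_range.1 hj)
    by_cases hij : i < j
    · by_cases hij' : j = i + 1
      · subst hij'
        have h3 := fan_ev (hQ e he (i + 1) (by omega)) (hQ e he i (by omega))
          (hQ e he (i + 1 + 1) (by omega)) (h.ne e he i hi').symm (h.ne e he (i + 1) hj')
          (fun x hx hx' => (h.arc e he i (i + 1) hij hj' x (by rw [segment_symm]; exact hx)
            hx').2)
        filter_upwards [h3] with n hn _ x hx hx'
        exact ⟨rfl, hn x (by rw [segment_symm]; exact hx) hx'⟩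
      · have h3 := disj_ev (hQ e he i (by omega)) (hQ e he (i + 1) (by omega))
          (hQ e he j (by omega)) (hQ e he (j + 1) (by omega))
          (fun x hx hx' => hij' (h.arc e he i j hij hj' x hx hx').1)
        filter_upwards [h3] with n hn _ x hx hx'
        exact absurd hx' (hn x hx)
    · exact Eventually.of_forall fun n hn => absurd hn hij
  have c_vert : ∀ᶠ n in l, ∀ e ∈ G.edgeSet, ∀ w : V, w ∉ e → ∀ i ∈ Finset.range (m e + 1),
      pos' n w ∉ segment ℝ (Q' n e i) (Q' n e (i + 1)) := by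
    rw [eventually_all_finite hfe]
    intro e he
    rw [eventually_all]
    intro w
    by_cases hw : w ∈ e
    · exact Eventually.of_forall fun n hn => absurd hw hn
    have h2 : ∀ᶠ n in l, ∀ i ∈ Finset.range (m e + 1),
        pos' n w ∉ segment ℝ (Q' n e i) (Q' n e (i + 1)) := by
      rw [eventually_all_finset]
      intro i hi
      have hi' : i ≤ m e := Nat.lt_succ_iff.1 (Finset.mem_range.1 hi)
      have h3 := disj_ev (hpos w) (hpos w) (hQ e he i (by omega)) (hQ e he (i + 1) (by omega))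
        (fun x hx hx' => by
          rw [segment_same, Set.mem_singleton_iff] at hx
          rw [hx] at hx'
          exact h.vert e he w hw i hi' hx')
      filter_upwards [h3] with n hn
      exact hn _ (by rw [segment_same]; rfl)
    filter_upwards [h2] with n hn _
    exact hn
  have c_cross : ∀ᶠ n in l, ∀ e ∈ G.edgeSet, ∀ f ∈ G.edgeSet, e ≠ f →
      ∀ i ∈ Finset.range (m e + 1), ∀ j ∈ Finset.range (m f + 1), ∀ x,
      x ∈ segment ℝ (Q' n e i) (Q' n e (i + 1)) → x ∈ segment ℝ (Q' n f j) (Q' n f (j + 1)) →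
      (∃ w, x = pos' n w) ∨
        dot (Q' n e (i + 1) - Q' n e i) (Q' n f (j + 1) - Q' n f j) = 0 := by
    rw [eventually_all_finite hfe]
    intro e he
    rw [eventually_all_finite hfe]
    intro f hf
    by_cases hef : e = f
    · exact Eventually.of_forall fun n hn => absurd hef hn
    have h2 : ∀ᶠ n in l, ∀ i ∈ Finset.range (m e + 1), ∀ j ∈ Finset.range (m f + 1), ∀ x,
        x ∈ segment ℝ (Q' n e i) (Q' n e (i + 1)) → x ∈ segment ℝ (Q' n f j) (Q' n f (j + 1)) →
        (∃ w, x = pos' n w) ∨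
          dot (Q' n e (i + 1) - Q' n e i) (Q' n f (j + 1) - Q' n f j) = 0 := by
      rw [eventually_all_finset]
      intro i hi
      rw [eventually_all_finset]
      intro j hj
      have hi' : i ≤ m e := Nat.lt_succ_iff.1 (Finset.mem_range.1 hi)
      have hj' : j ≤ m f := Nat.lt_succ_iff.1 (Finset.mem_range.1 hj)
      by_cases hx : ∃ x, x ∈ segment ℝ (Q e i) (Q e (i + 1)) ∧
          x ∈ segment ℝ (Q f j) (Q f (j + 1)) ∧ ¬ ∃ w, x = pos w
      · obtain ⟨x, hx1, hx2, hx3⟩ := hx
        rcases hcross e he f hf hef i hi' j hj' x hx1 hx2 with h4 | h4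
        · exact absurd h4 hx3
        · filter_upwards [h4] with n hn y _ _
          exact Or.inr hn
      · push Not at hx
        by_cases hy : ∃ x, x ∈ segment ℝ (Q e i) (Q e (i + 1)) ∧
          x ∈ segment ℝ (Q f j) (Q f (j + 1))
        · obtain ⟨x, hx1, hx2⟩ := hy
          obtain ⟨w, rfl⟩ := hx x hx1 hx2
          obtain ⟨hwe, he1⟩ := h.vend he hi' hx1
          obtain ⟨hwf, hf1⟩ := h.vend hf hj' hx2
          have huniq : ∀ y, y ∈ segment ℝ (Q e i) (Q e (i + 1)) →
              y ∈ segment ℝ (Q f j) (Q f (j + 1)) → y = pos w := by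
            intro y hy1 hy2
            obtain ⟨w', rfl⟩ := hx y hy1 hy2
            obtain ⟨hwe', -⟩ := h.vend he hi' hy1
            obtain ⟨hwf', -⟩ := h.vend hf hj' hy2
            by_contra hc
            have hww : w ≠ w' := fun h6 => hc (by rw [h6])
            exact hef (sym2_eq hww hwe hwe' hwf hwf')
          -- the other ends of the two segments
          have hE : ∃ (b0 : Pt) (b : ι → Pt), pos w ≠ b0 ∧ Tendsto b l (𝓝 b0) ∧
              segment ℝ (Q e i) (Q e (i + 1)) = segment ℝ (pos w) b0 ∧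
              ∀ n, segment ℝ (Q' n e i) (Q' n e (i + 1)) = segment ℝ (pos' n w) (b n) := by
            rcases he1 with ⟨rfl, h6⟩ | ⟨rfl, h6⟩
            · refine ⟨Q e 1, fun n => Q' n e 1, ?_, hQ e he 1 (by omega), ?_, ?_⟩
              · rw [h6]
                exact h.ne e he 0 hi'
              · rw [h6]
              · intro n
                rw [h0 e he w h6.symm n]
            · refine ⟨Q e (m e), fun n => Q' n e (m e), ?_, hQ e he (m e) (by omega), ?_, ?_⟩
              · rw [h6]
                exact (h.ne e he (m e) hi').symm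
              · rw [h6, segment_symm]
              · intro n
                rw [h1 e he w h6.symm n, segment_symm]
          have hF : ∃ (b0 : Pt) (b : ι → Pt), pos w ≠ b0 ∧ Tendsto b l (𝓝 b0) ∧
              segment ℝ (Q f j) (Q f (j + 1)) = segment ℝ (pos w) b0 ∧
              ∀ n, segment ℝ (Q' n f j) (Q' n f (j + 1)) = segment ℝ (pos' n w) (b n) := by
            rcases hf1 with ⟨rfl, h6⟩ | ⟨rfl, h6⟩
            · refine ⟨Q f 1, fun n => Q' n f 1, ?_, hQ f hf 1 (by omega), ?_, ?_⟩
              · rw [h6]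
                exact h.ne f hf 0 hj'
              · rw [h6]
              · intro n
                rw [h0 f hf w h6.symm n]
            · refine ⟨Q f (m f), fun n => Q' n f (m f), ?_, hQ f hf (m f) (by omega), ?_, ?_⟩
              · rw [h6]
                exact (h.ne f hf (m f) hj').symm
              · rw [h6, segment_symm]
              · intro n
                rw [h1 f hf w h6.symm n, segment_symm]
          obtain ⟨b0, b, hb0, hb, hb1, hb2⟩ := hE
          obtain ⟨c0, c, hc0, hc, hc1, hc2⟩ := hF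
          have h7 := fan_ev (hpos w) hb hc hb0 hc0 (fun x hx hx' =>
            huniq x (by rw [hb1]; exact hx) (by rw [hc1]; exact hx'))
          filter_upwards [h7] with n hn y hy1 hy2
          rw [hb2] at hy1
          rw [hc2] at hy2
          exact Or.inl ⟨w, hn y hy1 hy2⟩
        · push Not at hy
          have h3 := disj_ev (hQ e he i (by omega)) (hQ e he (i + 1) (by omega))
            (hQ f hf j (by omega)) (hQ f hf (j + 1) (by omega)) hy
          filter_upwards [h3] with n hn y hy1 hy2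
          exact absurd hy2 (hn y hy1)
    filter_upwards [h2] with n hn _
    exact hn
  filter_upwards [c_inj, c_ne, c_arc, c_vert, c_cross] with n n1 n2 n3 n4 n5
  have hr : ∀ {a b : ℕ}, a ≤ b → a ∈ Finset.range (b + 1) := fun hab =>
    Finset.mem_range.2 (Nat.lt_succ_iff.2 hab)
  refine ⟨n1, hk, ?_, ?_, ?_, ?_, ?_⟩
  · intro e he
    obtain ⟨u, v, huv, h2, h3⟩ := h.ends e he
    exact ⟨u, v, huv, h0 e he u h2 n, h1 e he v h3 n⟩
  · intro e he i hi
    exact n2 e he i (hr hi)
  · intro e he i j hij hj x hx hx'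
    exact n3 e he i (hr (le_trans hij.le hj)) j (hr hj) hij x hx hx'
  · intro e he w hw i hi
    exact n4 e he w hw i (hr hi)
  · intro e he f hf hef i hi j hj x hx hx'
    exact n5 e he f hf hef i (hr hi) j (hr hj) x hx hx'

end Pool.Agent.Lib.RACG
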