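import Pool.Agent.Lib.RACG.Stab
import Pool.Agent.Lib.RACG.Inter

/-!
# The last part of a straight edge is not crossed (MP_bf8d95_lc)
-/

set_option autoImplicit false

open Filter Topology

namespace Pool.Agent.Lib.RACG

theorem tail {V : Type} [Finite V] {k : ℕ} {G : SimpleGraph V} {D : Dr V} (h : IsRAC k G D)
    {e : Sym2 V} (he : e ∈ G.edgeSet) (hm : D.m e = 0) :
    ∃ τ : ℝ, 0 < τ ∧ τ < 1 ∧ ∀ f ∈ G.edgeSet, e ≠ f → ∀ j ≤ D.m f, ∀ x,
      x ∈ segment ℝ (D.pt e 0 + τ • D.dir e 0) (D.pt e 1) → x ∈ D.sg f j → x = D.pt e 1 := by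
  have hfe : G.edgeSet.Finite := Set.toFinite _
  have hd : D.dir e 0 ≠ 0 := by
    unfold Dr.dir
    exact sub_ne_zero.2 (h.ne e he 0 (Nat.zero_le _)).symm
  have hP1 : D.pt e 1 = D.pt e 0 + D.dir e 0 := by
    unfold Dr.dir
    rw [zero_add]
    abel
  -- interior points of the edge are not vertices
  have hint : ∀ r : ℝ, 0 < r → r < 1 → ¬ ∃ w, D.pt e 0 + r • D.dir e 0 = D.pos w := by
    rintro r hr0 hr1 ⟨w, hw⟩
    have hmem : D.pos w ∈ D.sg e 0 := by
      rw [← hw]
      refine mem_seg.2 ⟨r, hr0.le, hr1.le, rfl⟩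
    have hwe : w ∈ e := by
      by_contra hc
      exact h.vert e he w hc 0 (Nat.zero_le _) hmem
    obtain ⟨u, v, huv, h0, h1⟩ := h.ends e he
    rw [hm, zero_add] at h1
    rw [huv] at hwe
    rcases Sym2.mem_iff.1 hwe with rfl | rfl
    · rw [← h0] at hw
      have h2 : r • D.dir e 0 = 0 := by
        have := congrArg (fun z => z - D.pt e 0) hw
        simpa using this
      rcases smul_eq_zero.1 h2 with h3 | h3
      · exact hr0.ne' h3
      · exact hd h3
    · rw [← h1, hP1] at hw
      have h2 : (1 - r) • D.dir e 0 = 0 := by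
        rw [sub_smul, one_smul]
        have := congrArg (fun z => z - D.pt e 0) hw
        simp only [add_sub_cancel_left] at this
        rw [this, sub_self]
      rcases smul_eq_zero.1 h2 with h3 | h3
      · linarith
      · exact hd h3
  have key : ∀ᶠ τ in 𝓝[<] (1 : ℝ), ∀ f ∈ G.edgeSet, e ≠ f → ∀ j ∈ Finset.range (D.m f + 1), ∀ x,
      x ∈ segment ℝ (D.pt e 0 + τ • D.dir e 0) (D.pt e 1) → x ∈ D.sg f j → x = D.pt e 1 := by
    rw [eventually_all_finite hfe]
    intro f hf
    by_cases hef : e = f
    · exact Eventually.of_forall fun n hn => absurd hef hn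
    have h2 : ∀ᶠ τ in 𝓝[<] (1 : ℝ), ∀ j ∈ Finset.range (D.m f + 1), ∀ x,
        x ∈ segment ℝ (D.pt e 0 + τ • D.dir e 0) (D.pt e 1) → x ∈ D.sg f j →
        x = D.pt e 1 := by
      rw [eventually_all_finset]
      intro j hj
      have hj' : j ≤ D.m f := Nat.lt_succ_iff.1 (Finset.mem_range.1 hj)
      by_cases hP : D.pt e 1 ∈ D.sg f j
      · have hpos : ∀ᶠ τ in 𝓝[<] (1 : ℝ), 0 < τ :=
          eventually_nhdsWithin_of_eventually_nhds (lt_mem_nhds one_pos)
        filter_upwards [hpos, self_mem_nhdsWithin] with τ hτ0 hτ1 x hx hxf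
        by_contra hc
        have hτ1' : τ < 1 := hτ1
        obtain ⟨s, hs0, hs1, hxs⟩ := mem_seg.1 hx
        have hr : ∃ r : ℝ, 0 < r ∧ r ≤ 1 ∧ x = D.pt e 0 + r • D.dir e 0 := by
          refine ⟨τ + s * (1 - τ), by nlinarith, by nlinarith, ?_⟩
          rw [hxs, hP1]
          module
        obtain ⟨r, hr0, hr1, hxr⟩ := hr
        have hr1' : r < 1 := by
          rcases hr1.lt_or_eq with h3 | h3
          · exact h3
          · exfalso
            apply hc
            rw [hxr, h3, one_smul, hP1]
        -- the middle point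
        have hy1 : D.pt e 0 + ((r + 1) / 2) • D.dir e 0 ∈ D.sg e 0 :=
          mem_seg.2 ⟨(r + 1) / 2, by linarith, by linarith, rfl⟩
        have hconv : Convex ℝ (D.sg f j) := convex_segment _ _
        have hy2 : D.pt e 0 + ((r + 1) / 2) • D.dir e 0 ∈ D.sg f j := by
          have h4 := hconv hxf hP (a := 1 / 2) (b := 1 / 2) (by norm_num) (by norm_num)
            (by norm_num)
          have h5 : (1 / 2 : ℝ) • x + (1 / 2 : ℝ) • D.pt e 1 =
              D.pt e 0 + ((r + 1) / 2) • D.dir e 0 := by
            rw [hxr, hP1]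
            module
          rw [← h5]
          exact h4
        rcases h.cross e he f hf hef 0 (Nat.zero_le _) j hj' _ hy1 hy2 with h3 | h3
        · exact hint _ (by linarith) (by linarith) h3
        · -- the two segments are parallel
          obtain ⟨a, -, -, ha⟩ := mem_seg.1 hxf
          obtain ⟨b, -, -, hb⟩ := mem_seg.1 hP
          have h6 : (1 - r) • D.dir e 0 = (b - a) • D.dir f j := by
            have h7 : D.pt e 1 - x = (1 - r) • D.dir e 0 := by
              rw [hxr, hP1]
              module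
            have h8 : D.pt e 1 - x = (b - a) • D.dir f j := by
              rw [hb, ha]
              unfold Dr.dir
              module
            rw [← h7, h8]
          have h9 : dot ((1 : ℝ) • D.dir e 0) ((1 - r) • D.dir e 0) = 0 := by
            rw [h6, dot_smul, h3, mul_zero]
          rw [dot_smul, one_mul] at h9
          rcases mul_eq_zero.1 h9 with h10 | h10
          · linarith
          · exact hd (dot_self.1 h10)
      · have h3 : Tendsto (fun τ : ℝ => D.pt e 0 + τ • D.dir e 0) (𝓝[<] (1 : ℝ))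
            (𝓝 (D.pt e 1)) := by
          have h4 : Continuous fun τ : ℝ => D.pt e 0 + τ • D.dir e 0 := by fun_prop
          have h5 := (h4.tendsto 1).mono_left (nhdsWithin_le_nhds (s := Set.Iio 1))
          rw [one_smul, ← hP1] at h5
          exact h5
        have h6 := disj_ev h3 (tendsto_const_nhds (x := D.pt e 1))
          (tendsto_const_nhds (x := D.pt f j)) (tendsto_const_nhds (x := D.pt f (j + 1)))
          (fun x hx hx' => by
            rw [segment_same, Set.mem_singleton_iff] at hx
            rw [hx] at hx'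
            exact hP hx')
        filter_upwards [h6] with τ hτ x hx hx'
        exact absurd hx' (hτ x hx)
    filter_upwards [h2] with n hn _
    exact hn
  have hpos : ∀ᶠ τ in 𝓝[<] (1 : ℝ), 0 < τ :=
    eventually_nhdsWithin_of_eventually_nhds (lt_mem_nhds one_pos)
  obtain ⟨τ, ⟨h1, h2⟩, h3⟩ := ((key.and hpos).and self_mem_nhdsWithin).exists
  refine ⟨τ, h2, h3, ?_⟩
  intro f hf hef j hj x hx hx'
  exact h1 f hf hef j (Finset.mem_range.2 (Nat.lt_succ_iff.2 hj)) x hx hx'

end Pool.Agent.Lib.RACG
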